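import Pool.Agent.J4.H45.UQ.Giry
import Pool.Agent.Y264.QR.All

/-!
# Universal subsequences of eigenfunctions of random conformal metrics
-/

set_option autoImplicit false

open MeasureTheory Filter Topology Set TopologicalSpace
open Pool.Agent.Y262.QE Pool.Agent.Y264.QR

noncomputable section

namespace Pool.Agent.J4.H45.UQ

/-- the measure `v ^ 2 dm` -/
def mass {M : Type} [MeasurableSpace M] (m : Measure M) (v : M → ℝ) : Measure M :=
  m.withDensity fun x => ENNReal.ofReal ((v x) ^ 2)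

theorem mass_prob {M : Type} [MeasurableSpace M] (m : Measure M) (v : M → ℝ) (hv : MemLp v 2 m)
    (h1 : ∫ x, v x * v x ∂m = 1) : IsProbabilityMeasure (mass m v) := by
  constructor
  unfold mass
  rw [withDensity_apply _ MeasurableSet.univ, Measure.restrict_univ]
  have h2 : ∫⁻ x, ENNReal.ofReal ((v x) ^ 2) ∂m = ENNReal.ofReal (∫ x, (v x) ^ 2 ∂m) :=
    (ofReal_integral_eq_lintegral_ofReal hv.integrable_sq
      (Eventually.of_forall fun x => sq_nonneg _)).symm
  have h3 : ∫ x, (v x) ^ 2 ∂m = 1 := by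
    rw [← h1]
    exact integral_congr_ae (Eventually.of_forall fun x => sq _)
  rw [h2, h3, ENNReal.ofReal_one]

theorem mass_int {M : Type} [MeasurableSpace M] (m : Measure M) (v : M → ℝ) (hv : MemLp v 2 m)
    (f : M → ℝ) : ∫ x, f x ∂(mass m v) = ∫ x, f x * (v x) ^ 2 ∂m := by
  unfold mass
  have hm : AEMeasurable (fun x => ENNReal.ofReal ((v x) ^ 2)) m :=
    ENNReal.measurable_ofReal.comp_aemeasurable (hv.aestronglyMeasurable.aemeasurable.pow_const 2)
  rw [integral_withDensity_eq_integral_toReal_smul₀ hm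
    (Eventually.of_forall fun x => ENNReal.ofReal_lt_top)]
  refine integral_congr_ae (Eventually.of_forall fun x => ?_)
  show (ENNReal.ofReal ((v x) ^ 2)).toReal • f x = _
  rw [ENNReal.toReal_ofReal (sq_nonneg _), smul_eq_mul, mul_comm]

section sw

variable {M : Type*} [TopologicalSpace M] [CompactSpace M] [MetrizableSpace M]
  [MeasurableSpace M] [BorelSpace M]

/-- the evaluation of probability measures at a function -/
def evf (f : C(M, ℝ)) : C(ProbabilityMeasure M, ℝ) :=
  ⟨fun Q => ∫ x, f x ∂(Q : Measure M), cont_int f⟩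

theorem evf_cont [Nonempty M] : Continuous (evf : C(M, ℝ) → C(ProbabilityMeasure M, ℝ)) := by
  haveI : Nonempty (ProbabilityMeasure M) := ⟨⟨Measure.dirac (Classical.arbitrary M), inferInstance⟩⟩
  refine (LipschitzWith.of_dist_le_mul (K := 1) fun f g => ?_).continuous
  rw [NNReal.coe_one, one_mul, dist_eq_norm, dist_eq_norm, ContinuousMap.norm_le_of_nonempty]
  intro Q
  exact int_near (Q : Measure M) f g

/-- measurability by the Stone-Weierstrass theorem -/
theorem sw {Ω : Type*} [MeasurableSpace Ω] {P : Measure Ω} (U : Ω → ProbabilityMeasure M)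
    (h : ∀ f : C(M, ℝ), AEStronglyMeasurable (fun o => ∫ x, f x ∂(U o : Measure M)) P)
    (Ψ : C(ProbabilityMeasure M, ℝ)) : AEStronglyMeasurable (fun o => Ψ (U o)) P := by
  let B : Subalgebra ℝ C(ProbabilityMeasure M, ℝ) :=
    { carrier := {Ψ | AEStronglyMeasurable (fun o => Ψ (U o)) P}
      mul_mem' := fun {a b} ha hb => AEStronglyMeasurable.mul ha hb
      add_mem' := fun {a b} ha hb => AEStronglyMeasurable.add ha hb
      algebraMap_mem' := fun r => aestronglyMeasurable_const }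
  have hB : ∀ Φ, Φ ∈ B ↔ AEStronglyMeasurable (fun o => Φ (U o)) P := fun Φ => Iff.rfl
  have hsep : B.SeparatesPoints := by
    intro Q Q' hQ
    by_contra hcon
    push Not at hcon
    apply hQ
    apply ProbabilityMeasure.toMeasure_injective
    refine ext_of_forall_integral_eq_of_IsFiniteMeasure fun f => ?_
    exact hcon (evf f.toContinuousMap) ⟨evf f.toContinuousMap, h f.toContinuousMap, rfl⟩
  have htop := ContinuousMap.subalgebra_topologicalClosure_eq_top_of_separatesPoints B hsep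
  have hΨ : Ψ ∈ closure (B : Set C(ProbabilityMeasure M, ℝ)) := by
    have : Ψ ∈ B.topologicalClosure := by rw [htop]; trivial
    exact this
  obtain ⟨q, hq1, hq2⟩ := mem_closure_iff_seq_limit.1 hΨ
  refine aestronglyMeasurable_of_tendsto_ae atTop (f := fun n o => q n (U o)) (fun n => hq1 n)
    (Eventually.of_forall fun o => ?_)
  exact ((continuous_eval_const (U o)).tendsto _).comp hq2

end sw

/-- the normalized area -/
theorem mean_eq {M : Type} [MetricSpace M] [CompactSpace M] [MeasurableSpace M] [BorelSpace M]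
    (μ : Measure M) (f φ : C(M, ℝ)) :
    (∫ x, f x ∂(wm μ fun x => Real.exp (φ x))) / (wm μ fun x => Real.exp (φ x)).real univ =
      avg μ f φ := (avg_eq μ f φ).symm

theorem avg_sub {M : Type} [MetricSpace M] [CompactSpace M] [MeasurableSpace M] [BorelSpace M]
    (μ : Measure M) [IsFiniteMeasure μ] (f g φ : C(M, ℝ)) :
    avg μ (f - g) φ = avg μ f φ - avg μ g φ := by
  have hi : ∀ h : C(M, ℝ), Integrable (fun x => h x * Real.exp (φ x)) μ := by
    intro h
    have hc : Continuous fun x => h x * Real.exp (φ x) :=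
      h.continuous.mul (Real.continuous_exp.comp φ.continuous)
    exact hc.integrable_of_hasCompactSupport (HasCompactSupport.of_compactSpace _)
  unfold avg
  rw [← sub_div, ← integral_sub (hi f) (hi g)]
  congr 1
  refine integral_congr_ae (Eventually.of_forall fun x => ?_)
  show (f x - g x) * _ = _
  ring

theorem app {M : Type} [MetricSpace M] [CompactSpace M] [MeasurableSpace M] [BorelSpace M]
    [Nonempty M] (μ : Measure M) (D : Data M) (hD : D.IsSurf μ) [MeasurableSpace C(M, ℝ)]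
    [BorelSpace C(M, ℝ)] (P : Measure C(M, ℝ)) [IsProbabilityMeasure P] (S : Set C(M, ℝ))
    (hS : Dense (Submodule.span ℝ S : Set C(M, ℝ)))
    (hP : ∀ h ∈ S, ∀ t : ℝ, P.map (fun φ => φ + t • h) ≪ P)
    (u : C(M, ℝ) → ℕ → M → ℝ) (lam : C(M, ℝ) → ℕ → ℝ)
    (hu : ∀ φ, EigBasis (D.conf fun x => Real.exp (φ x)) (wm μ fun x => Real.exp (φ x))
      (u φ) (lam φ)) (U : C(M, ℝ) → ℕ → ProbabilityMeasure M)
    (hU : ∀ φ j, (U φ j : Measure M) = mass (wm μ fun x => Real.exp (φ x)) (u φ j))
    (J : ℕ → ℕ) (hJ : Tendsto J atTop atTop) (C : Set C(M, ℝ)) (hC : IsSigmaCompact C) :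
    ∃ (κ : ℕ → ℕ) (ν : C(M, ℝ) → ProbabilityMeasure (ProbabilityMeasure M)), StrictMono κ ∧
      (∀ Ψ : C(ProbabilityMeasure M, ℝ), AEStronglyMeasurable
        (fun φ => ∫ Q, Ψ Q ∂(ν φ : Measure (ProbabilityMeasure M))) P) ∧
      (∀ᵐ φ ∂P, (∀ f : C(M, ℝ), ∫ Q : ProbabilityMeasure M, (∫ x, f x ∂(Q : Measure M))
          ∂(ν φ : Measure (ProbabilityMeasure M)) = avg μ f φ) ∧
        ∀ᵐ Q ∂(ν φ : Measure (ProbabilityMeasure M)), ∃ τ : ℕ → ℕ, StrictMono τ ∧
          Tendsto (fun n => U φ (J (κ (τ n)))) atTop (𝓝 Q)) ∧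
      (∀ σ : ℕ → ℕ, StrictMono σ → ∀ᵐ φ ∂P,
        (∀ Ψ : C(ProbabilityMeasure M, ℝ), Tendsto
          (fun n : ℕ => (n : ℝ)⁻¹ * ∑ k ∈ Finset.range n, Ψ (U φ (J (κ (σ k))))) atTop
          (𝓝 (∫ Q, Ψ Q ∂(ν φ : Measure (ProbabilityMeasure M))))) ∧
        ∀ f : C(M, ℝ), Tendsto (fun n : ℕ => (n : ℝ)⁻¹ * ∑ k ∈ Finset.range n,
          ∫ x, f x * (u φ (J (κ (σ k))) x) ^ 2 ∂(wm μ fun x => Real.exp (φ x))) atTop
          (𝓝 (avg μ f φ))) ∧
      (∀ f ∈ C, ∀ σ : ℕ → ℕ, StrictMono σ → ∀ a : ℕ → ℝ, Summable (fun k => a k ^ 2) →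
        ∀ᵐ φ ∂P, ∃ L, Tendsto (fun n => ∑ k ∈ Finset.range n, a k *
          ((∫ x, f x * (u φ (J (κ (σ k))) x) ^ 2 ∂(wm μ fun x => Real.exp (φ x))) -
            avg μ f φ)) atTop (𝓝 L)) ∧
      ∀ (f : C(M, ℝ)) (A : Set C(M, ℝ)), MeasurableSet A →
        Tendsto (fun k => ∫ φ in A, ((∫ x, f x * (u φ (J (κ k)) x) ^ 2
          ∂(wm μ fun x => Real.exp (φ x))) - avg μ f φ) ^ 2 ∂P) atTop
          (𝓝 (∫ φ in A, ∫ Q : ProbabilityMeasure M, ((∫ x, f x ∂(Q : Measure M)) - avg μ f φ) ^ 2
            ∂(ν φ : Measure (ProbabilityMeasure M)) ∂P)) := by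
  obtain ⟨hfin, -⟩ := tFin M μ D hD
  haveI := hfin
  obtain ⟨⟨J₀, hJ₀⟩, hw⟩ := tTop M μ D hD P S hS hP u lam hu
  obtain ⟨-, hac, hab, -⟩ := Pool.Agent.Y689.QR.cm M μ
  haveI : SecondCountableTopology M := inferInstance
  haveI : BorelSpace (ProbabilityMeasure M) := borelPM
  haveI : Nonempty (ProbabilityMeasure M) :=
    ⟨⟨Measure.dirac (Classical.arbitrary M), inferInstance⟩⟩
  haveI : Fact ((2 : ENNReal) ≠ ⊤) := ⟨by norm_num⟩
  haveI : SeparableSpace (Lp ℝ 2 P) := inferInstance
  have hint : ∀ (f : C(M, ℝ)) (φ : C(M, ℝ)) (j : ℕ), ∫ x, f x ∂(U φ j : Measure M) =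
      ∫ x, f x * (u φ j x) ^ 2 ∂(wm μ fun x => Real.exp (φ x)) := by
    intro f φ j
    rw [hU φ j]
    exact mass_int _ _ ((hu φ).eig j).mem _
  obtain ⟨k₀, hk₀⟩ := eventually_atTop.1 (hJ.eventually_ge_atTop J₀)
  let V : ℕ → C(M, ℝ) → ProbabilityMeasure M := fun k φ => U φ (J (k + k₀))
  have hV : ∀ k (Ψ : C(ProbabilityMeasure M, ℝ)), AEStronglyMeasurable (fun φ => Ψ (V k φ)) P := by
    intro k Ψ
    refine sw (V k) (fun f => ?_) Ψ
    have := hJ₀ f (J (k + k₀)) (hk₀ _ (Nat.le_add_left _ _))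
    simp only [← hint] at this
    exact this
  obtain ⟨κ, ν, hκ, hνm, hνw, hνc, hνs⟩ := univSub (P := P) V hV (evf '' C) (hC.image evf_cont)
  have hbary0 : ∀ f : C(M, ℝ), ∀ᵐ φ ∂P,
      ∫ Q, evf f Q ∂(ν φ : Measure (ProbabilityMeasure M)) = avg μ f φ := by
    intro f
    have h1 : Integrable (fun φ => ∫ Q, evf f Q ∂(ν φ : Measure (ProbabilityMeasure M))) P :=
      Integrable.of_bound (hνm _) ‖evf f‖ (Eventually.of_forall fun φ => by
        rw [Real.norm_eq_abs]; exact int_bound (ν φ : Measure (ProbabilityMeasure M)) _)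
    have h2 : Integrable (fun φ => avg μ f φ) P :=
      Integrable.of_bound (hac f).measurable.aestronglyMeasurable ‖f‖
        (Eventually.of_forall fun φ => by rw [Real.norm_eq_abs]; exact hab f φ)
    refine h1.ae_eq_of_forall_setIntegral_eq _ _ h2 fun A hA _ => ?_
    have h3 := hνw (evf f) A hA
    have h4 := (hw f).1 (A.indicator 1) ((integrable_indicator_iff hA).2
      (integrable_const (1 : ℝ)).integrableOn)
    have h5 : ∀ g : C(M, ℝ) → ℝ, ∫ φ, A.indicator (1 : C(M, ℝ) → ℝ) φ * g φ ∂P =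
        ∫ φ in A, g φ ∂P := by
      intro g
      rw [← integral_indicator hA]
      refine integral_congr_ae (Eventually.of_forall fun φ => ?_)
      by_cases hφ : φ ∈ A
      · simp [hφ]
      · simp [hφ]
    simp only [h5, mean_eq] at h4
    have h6 : Tendsto (fun k => J (κ k + k₀)) atTop atTop :=
      hJ.comp ((tendsto_add_atTop_nat k₀).comp hκ.tendsto_atTop)
    refine tendsto_nhds_unique h3 ((h4.comp h6).congr fun k => ?_)
    refine integral_congr_ae (Eventually.of_forall fun φ => ?_)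
    exact (hint f φ (J (κ k + k₀))).symm
  have hbary : ∀ᵐ φ ∂P, ∀ f : C(M, ℝ),
      ∫ Q, evf f Q ∂(ν φ : Measure (ProbabilityMeasure M)) = avg μ f φ := by
    have h1 : ∀ᵐ φ ∂P, ∀ m, ∫ Q, evf (denseSeq C(M, ℝ) m) Q
        ∂(ν φ : Measure (ProbabilityMeasure M)) = avg μ (denseSeq C(M, ℝ) m) φ :=
      ae_all_iff.2 fun m => hbary0 _
    filter_upwards [h1] with φ hφ f
    refine eq_of_abs_sub_le_all fun ε hε => ?_
    obtain ⟨m, hm⟩ := (denseRange_denseSeq C(M, ℝ)).exists_dist_lt f (show 0 < ε / 2 by positivity)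
    have h2 := int_near (ν φ : Measure (ProbabilityMeasure M)) (evf f) (evf (denseSeq C(M, ℝ) m))
    have h3 : ‖evf f - evf (denseSeq C(M, ℝ) m)‖ ≤ dist f (denseSeq C(M, ℝ) m) := by
      rw [ContinuousMap.norm_le_of_nonempty]
      intro Q
      rw [dist_eq_norm]
      exact int_near (Q : Measure M) _ _
    have h4 := hab (f - denseSeq C(M, ℝ) m) φ
    rw [avg_sub, ← dist_eq_norm] at h4
    have h5 := hφ m
    rw [abs_le] at h2 h4 ⊢
    constructor <;> linarith [h2.1, h2.2, h4.1, h4.2]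
  refine ⟨fun k => κ k + k₀, ν, fun a b h => Nat.add_lt_add_right (hκ h) _, hνm, ?_, ?_, ?_, ?_⟩
  · filter_upwards [hbary, hνc id strictMono_id] with φ h1 h2
    refine ⟨h1, ?_⟩
    have h3 : ∀ᵐ Q ∂(ν φ : Measure (ProbabilityMeasure M)), ∀ j,
        Q ∈ closure ((fun k => V (κ k) φ) '' Ici j) :=
      ae_all_iff.2 fun j => supp _ (ν φ : Measure (ProbabilityMeasure M)) h2 j
    filter_upwards [h3] with Q hQ
    have h4 : MapClusterPt Q atTop (fun k => V (κ k) φ) := by
      rw [mapClusterPt_iff_frequently]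
      intro s hs
      rw [frequently_atTop]
      intro j
      obtain ⟨y, hy1, k, hk, rfl⟩ := mem_closure_iff_nhds.1 (hQ j) s hs
      exact ⟨k, hk, hy1⟩
    obtain ⟨τ, hτ1, hτ2⟩ := TopologicalSpace.FirstCountableTopology.tendsto_subseq h4
    exact ⟨τ, hτ1, hτ2⟩
  · intro σ hσ
    filter_upwards [hbary, hνc σ hσ] with φ h1 h2
    refine ⟨fun Ψ => h2 Ψ, fun f => ?_⟩
    have h3 := h2 (evf f)
    rw [h1 f] at h3
    refine h3.congr fun n => ?_
    unfold av
    congr 1
    exact Finset.sum_congr rfl fun k _ => hint f φ _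
  · intro f hf σ hσ a ha
    filter_upwards [hbary, hνs (evf f) (mem_image_of_mem _ hf) σ hσ a ha] with φ h1 h2
    obtain ⟨L, hL⟩ := h2
    refine ⟨L, hL.congr fun n => ?_⟩
    refine Finset.sum_congr rfl fun k _ => ?_
    rw [h1 f]
    show a k * ((∫ x, f x ∂(U φ (J (κ (σ k) + k₀)) : Measure M)) - avg μ f φ) = _
    rw [hint]
  · intro f A hA
    have h6 : Tendsto (fun k => J (κ k + k₀)) atTop atTop :=
      hJ.comp ((tendsto_add_atTop_nat k₀).comp hκ.tendsto_atTop)
    have ha2 : Integrable (fun φ => avg μ f φ) P :=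
      Integrable.of_bound (hac f).measurable.aestronglyMeasurable ‖f‖
        (Eventually.of_forall fun φ => by rw [Real.norm_eq_abs]; exact hab f φ)
    have hasq : Integrable (fun φ => (avg μ f φ) ^ 2) P :=
      Integrable.of_bound ((hac f).measurable.pow_const 2).aestronglyMeasurable (‖f‖ ^ 2)
        (Eventually.of_forall fun φ => by
          rw [norm_pow, Real.norm_eq_abs]
          exact pow_le_pow_left₀ (abs_nonneg _) (hab f φ) 2)
    have hmsq : ∀ k, Integrable (fun φ => (evf f * evf f) (V k φ)) P := fun k =>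
      Integrable.of_bound (hV k _) ‖evf f * evf f‖
        (Eventually.of_forall fun φ => (evf f * evf f).norm_coe_le_norm _)
    have hmi : ∀ k, Integrable (fun φ => evf f (V k φ)) P := fun k =>
      Integrable.of_bound (hV k _) ‖evf f‖
        (Eventually.of_forall fun φ => (evf f).norm_coe_le_norm _)
    have hcm : ∀ k, Integrable (fun φ => avg μ f φ * evf f (V k φ)) P := fun k =>
      (hmi k).bdd_mul (c := ‖f‖) (hac f).measurable.aestronglyMeasurable
        (Eventually.of_forall fun φ => by rw [Real.norm_eq_abs]; exact hab f φ)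
    have e1 := hνw (evf f * evf f) A hA
    have e2 := (hw f).1 (A.indicator fun φ => avg μ f φ) ((integrable_indicator_iff hA).2
      ha2.integrableOn)
    have h5 : ∀ g : C(M, ℝ) → ℝ, ∫ φ, A.indicator (fun φ => avg μ f φ) φ * g φ ∂P =
        ∫ φ in A, avg μ f φ * g φ ∂P := by
      intro g
      rw [← integral_indicator hA]
      refine integral_congr_ae (Eventually.of_forall fun φ => ?_)
      by_cases hφ : φ ∈ A
      · simp [hφ]
      · simp [hφ]
    simp only [h5, mean_eq] at e2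
    have e3 := (e1.sub ((e2.comp h6).const_mul 2)).add_const (∫ φ in A, (avg μ f φ) ^ 2 ∂P)
    have e4 : ∫ φ in A, ∫ Q : ProbabilityMeasure M, ((∫ x, f x ∂(Q : Measure M)) - avg μ f φ) ^ 2
          ∂(ν φ : Measure (ProbabilityMeasure M)) ∂P =
        ∫ φ in A, ∫ Q, (evf f * evf f) Q ∂(ν φ : Measure (ProbabilityMeasure M)) ∂P -
          2 * ∫ φ in A, avg μ f φ * avg μ f φ ∂P + ∫ φ in A, (avg μ f φ) ^ 2 ∂P := by
      have hB : ∀ᵐ φ ∂P, ∫ Q : ProbabilityMeasure M, ((∫ x, f x ∂(Q : Measure M)) - avg μ f φ) ^ 2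
          ∂(ν φ : Measure (ProbabilityMeasure M)) =
          ∫ Q, (evf f * evf f) Q ∂(ν φ : Measure (ProbabilityMeasure M)) -
            2 * (avg μ f φ * avg μ f φ) + (avg μ f φ) ^ 2 := by
        filter_upwards [hbary] with φ h1
        have h7 : ∀ Q : ProbabilityMeasure M, ((∫ x, f x ∂(Q : Measure M)) - avg μ f φ) ^ 2 =
            (evf f * evf f) Q - (2 * avg μ f φ) * evf f Q + (avg μ f φ) ^ 2 := by
          intro Q
          show (evf f Q - avg μ f φ) ^ 2 = evf f Q * evf f Q - (2 * avg μ f φ) * evf f Q +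
            (avg μ f φ) ^ 2
          ring
        simp only [h7]
        have i1 : Integrable (fun Q => (evf f * evf f) Q) (ν φ : Measure (ProbabilityMeasure M)) :=
          int_cm _ _
        have i2 : Integrable (fun Q => (2 * avg μ f φ) * evf f Q)
            (ν φ : Measure (ProbabilityMeasure M)) := (int_cm _ _).const_mul _
        have i12 : Integrable (fun Q => (evf f * evf f) Q - (2 * avg μ f φ) * evf f Q)
            (ν φ : Measure (ProbabilityMeasure M)) := i1.sub i2
        rw [integral_add i12 (integrable_const _), integral_sub i1 i2, integral_const_mul,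
          h1 f]
        simp only [integral_const, probReal_univ, smul_eq_mul, one_mul]
        ring
      have i3 : Integrable (fun φ => ∫ Q, (evf f * evf f) Q
          ∂(ν φ : Measure (ProbabilityMeasure M))) P :=
        Integrable.of_bound (hνm _) ‖evf f * evf f‖ (Eventually.of_forall fun φ => by
          rw [Real.norm_eq_abs]; exact int_bound (ν φ : Measure (ProbabilityMeasure M)) _)
      have i4 : Integrable (fun φ => 2 * (avg μ f φ * avg μ f φ)) P := by
        refine (hasq.const_mul 2).congr (Eventually.of_forall fun φ => ?_)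
        show 2 * (avg μ f φ) ^ 2 = _
        ring
      rw [setIntegral_congr_ae hA (hB.mono fun φ h _ => h)]
      have i34 : Integrable (fun φ => ∫ Q, (evf f * evf f) Q
          ∂(ν φ : Measure (ProbabilityMeasure M)) - 2 * (avg μ f φ * avg μ f φ)) P := i3.sub i4
      rw [integral_add i34.integrableOn hasq.integrableOn,
        integral_sub i3.integrableOn i4.integrableOn, integral_const_mul]
    rw [e4]
    refine e3.congr fun k => ?_
    have e5 : ∀ φ, ((∫ x, f x * (u φ (J (κ k + k₀)) x) ^ 2 ∂(wm μ fun x => Real.exp (φ x))) -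
        avg μ f φ) ^ 2 = (evf f * evf f) (V (κ k) φ) - 2 * (avg μ f φ * evf f (V (κ k) φ)) +
          (avg μ f φ) ^ 2 := by
      intro φ
      rw [← hint]
      show (evf f (V (κ k) φ) - avg μ f φ) ^ 2 = evf f (V (κ k) φ) * evf f (V (κ k) φ) -
        2 * (avg μ f φ * evf f (V (κ k) φ)) + (avg μ f φ) ^ 2
      ring
    simp only [e5]
    have i56 : Integrable (fun φ => (evf f * evf f) (V (κ k) φ) -
        2 * (avg μ f φ * evf f (V (κ k) φ))) P := (hmsq _).sub ((hcm _).const_mul 2)
    rw [integral_add i56.integrableOn hasq.integrableOn,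
      integral_sub (hmsq _).integrableOn ((hcm _).const_mul 2).integrableOn, integral_const_mul]
    congr 2
    congr 1
    refine integral_congr_ae (Eventually.of_forall fun φ => ?_)
    show avg μ f φ * _ = avg μ f φ * _
    rw [← hint]
    rfl

end Pool.Agent.J4.H45.UQ
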