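import Mathlib

/-!
# Almost everywhere convergence of weighted sums

A sequence of bounded random variables which is close to a sequence of martingale differences.
-/

set_option autoImplicit false

open MeasureTheory Filter Topology Set

noncomputable section

namespace Pool.Agent.J4.H45.UQ

variable {Ω : Type*} [mΩ : MeasurableSpace Ω]

theorem condExp_bdd {P : Measure Ω} [IsProbabilityMeasure P] {m : MeasurableSpace Ω} (Y : Ω → ℝ)
    (B : ℝ) (hB : 0 ≤ B) (h : ∀ᵐ o ∂P, |Y o| ≤ B) : ∀ᵐ o ∂P, |(P[Y|m]) o| ≤ B :=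
  ae_bdd_condExp_of_ae_bdd (R := ⟨B, hB⟩) h

/-- a square summable series of bounded martingale differences converges -/
theorem mart {P : Measure Ω} [IsProbabilityMeasure P] (F : Filtration ℕ mΩ) (d : ℕ → Ω → ℝ) (B : ℝ)
    (hd : ∀ n, StronglyMeasurable[F (n + 1)] (d n)) (hB : ∀ n, ∀ᵐ o ∂P, |d n o| ≤ B)
    (h0 : ∀ n, P[d n|F n] =ᵐ[P] 0) (b : ℕ → ℝ) (hb : Summable fun n => b n ^ 2) :
    ∀ᵐ o ∂P, ∃ L, Tendsto (fun n => ∑ k ∈ Finset.range n, b k * d k o) atTop (𝓝 L) := by
  have hdm : ∀ n, AEStronglyMeasurable (d n) P := fun n =>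
    ((hd n).mono (F.le _)).aestronglyMeasurable
  have hint : ∀ n, Integrable (d n) P := fun n => Integrable.of_bound (hdm n) B
    ((hB n).mono fun o h => by rw [Real.norm_eq_abs]; exact h)
  set M : ℕ → Ω → ℝ := fun n o => ∑ k ∈ Finset.range n, b k * d k o with hM
  have hMad : ∀ n, StronglyMeasurable[F n] (M n) := by
    intro n
    refine Finset.stronglyMeasurable_fun_sum _ fun k hk => ?_
    exact ((hd k).mono (F.mono (Finset.mem_range.1 hk))).const_mul _
  have hMint : ∀ n, Integrable (M n) P := fun n =>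
    integrable_finset_sum _ fun k _ => (hint k).const_mul _
  have hMb : ∀ n, ∃ C, ∀ᵐ o ∂P, |M n o| ≤ C := by
    intro n
    refine ⟨∑ k ∈ Finset.range n, |b k| * B, ?_⟩
    have : ∀ᵐ o ∂P, ∀ k, |d k o| ≤ B := ae_all_iff.2 hB
    filter_upwards [this] with o ho
    refine (Finset.abs_sum_le_sum_abs _ _).trans (Finset.sum_le_sum fun k _ => ?_)
    rw [abs_mul]
    exact mul_le_mul_of_nonneg_left (ho k) (abs_nonneg _)
  have hmart : Martingale M F P := by
    refine martingale_of_condExp_sub_eq_zero_nat hMad hMint fun n => ?_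
    have h1 : M (n + 1) - M n = b n • d n := by
      funext o
      simp only [hM, Pi.sub_apply, Finset.sum_range_succ, Pi.smul_apply, smul_eq_mul]
      ring
    rw [h1]
    refine (condExp_smul (b n) (d n) _).trans ?_
    filter_upwards [h0 n] with o ho
    simp [ho]
  -- the second moments
  have hcross : ∀ n, ∫ o, M n o * d n o ∂P = 0 := by
    intro n
    obtain ⟨C, hC⟩ := hMb n
    have h1 : Integrable (M n * d n) P := by
      refine Integrable.of_bound ((hMint n).aestronglyMeasurable.mul (hdm n)) (C * B) ?_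
      filter_upwards [hC, hB n] with o h2 h3
      rw [Pi.mul_apply, norm_mul, Real.norm_eq_abs, Real.norm_eq_abs]
      exact mul_le_mul h2 h3 (abs_nonneg _) ((abs_nonneg _).trans h2)
    have h2 := condExp_mul_of_stronglyMeasurable_left (hMad n) h1 (hint n)
    have h3 : ∫ o, (M n * d n) o ∂P = ∫ o, (P[M n * d n|F n]) o ∂P := (integral_condExp (F.le n)).symm
    have h4 : ∫ o, (P[M n * d n|F n]) o ∂P = 0 := by
      rw [integral_congr_ae h2]
      have h5 : (M n * P[d n|F n]) =ᵐ[P] 0 := by
        filter_upwards [h0 n] with o ho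
        simp [ho]
      rw [integral_congr_ae h5]
      simp
    exact h3.trans h4
  have hB0 : 0 ≤ B ^ 2 := sq_nonneg _
  have hsq : ∀ n, Integrable (fun o => M n o ^ 2) P ∧
      ∫ o, M n o ^ 2 ∂P ≤ (∑ k ∈ Finset.range n, b k ^ 2) * B ^ 2 := by
    intro n
    induction n with
    | zero => simp [hM]
    | succ n ih =>
      obtain ⟨C, hC⟩ := hMb n
      have e1 : ∀ o, M (n + 1) o ^ 2 = M n o ^ 2 + (2 * b n) * (M n o * d n o) +
          b n ^ 2 * (d n o) ^ 2 := by
        intro o
        have : M (n + 1) o = M n o + b n * d n o := Finset.sum_range_succ _ _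
        rw [this]; ring
      have i2 : Integrable (fun o => M n o * d n o) P := by
        refine Integrable.of_bound ((hMint n).aestronglyMeasurable.mul (hdm n)) (C * B) ?_
        filter_upwards [hC, hB n] with o h2 h3
        rw [norm_mul, Real.norm_eq_abs, Real.norm_eq_abs]
        exact mul_le_mul h2 h3 (abs_nonneg _) ((abs_nonneg _).trans h2)
      have i3 : Integrable (fun o => d n o ^ 2) P := by
        refine Integrable.of_bound ((hdm n).pow 2) (B ^ 2) ?_
        filter_upwards [hB n] with o h3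
        rw [norm_pow, Real.norm_eq_abs]
        have : 0 ≤ |d n o| := abs_nonneg _
        nlinarith
      have h5 : ∫ o, d n o ^ 2 ∂P ≤ B ^ 2 := by
        have h6 : ∫ o, d n o ^ 2 ∂P ≤ ∫ _, B ^ 2 ∂P := by
          refine integral_mono_ae i3 (integrable_const _) ?_
          filter_upwards [hB n] with o h3
          have : 0 ≤ |d n o| := abs_nonneg _
          show d n o ^ 2 ≤ B ^ 2
          rw [← sq_abs]
          nlinarith
        simpa using h6
      constructor
      · simp only [e1]
        exact (ih.1.add (i2.const_mul _)).add (i3.const_mul _)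
      · simp only [e1]
        have i12 : Integrable (fun o => M n o ^ 2 + (2 * b n) * (M n o * d n o)) P :=
          ih.1.add (i2.const_mul _)
        rw [integral_add i12 (i3.const_mul _), integral_add ih.1 (i2.const_mul _), integral_const_mul, integral_const_mul, hcross n,
          Finset.sum_range_succ, add_mul]
        have := mul_le_mul_of_nonneg_left h5 (sq_nonneg (b n))
        linarith [ih.2]
  have hL1 : ∀ n, eLpNorm (M n) 1 P ≤ ((1 + (∑' k, b k ^ 2) * B ^ 2).toNNReal : NNReal) := by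
    intro n
    rw [eLpNorm_one_eq_lintegral_enorm, ← ofReal_integral_norm_eq_lintegral_enorm (hMint n)]
    show ENNReal.ofReal _ ≤ ENNReal.ofReal _
    refine ENNReal.ofReal_le_ofReal ?_
    have h1 : ∫ o, ‖M n o‖ ∂P ≤ ∫ o, (1 + M n o ^ 2) ∂P := by
      refine integral_mono (hMint n).norm ((integrable_const _).add (hsq n).1) fun o => ?_
      show ‖M n o‖ ≤ 1 + M n o ^ 2
      rw [Real.norm_eq_abs, ← sq_abs]
      nlinarith [abs_nonneg (M n o), sq_nonneg (|M n o| - 1)]
    rw [integral_add (integrable_const _) (hsq n).1] at h1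
    simp only [integral_const, probReal_univ, smul_eq_mul, mul_one] at h1
    have h2 : (∑ k ∈ Finset.range n, b k ^ 2) ≤ ∑' k, b k ^ 2 :=
      hb.sum_le_tsum _ fun k _ => sq_nonneg _
    have := mul_le_mul_of_nonneg_right h2 hB0
    linarith [(hsq n).2]
  filter_upwards [hmart.submartingale.ae_tendsto_limitProcess hL1] with o ho
  exact ⟨_, ho⟩

/-- sequences which are close to martingale differences -/
theorem conv {P : Measure Ω} [IsProbabilityMeasure P] (F : Filtration ℕ mΩ) (Y : ℕ → Ω → ℝ)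
    (K C : ℝ) (n₀ : ℕ) (hY : ∀ n, AEStronglyMeasurable (Y n) P) (hK : ∀ n, ∀ᵐ o ∂P, |Y n o| ≤ K)
    (hK0 : 0 ≤ K) (hC : 0 ≤ C)
    (h1 : ∀ n, n₀ ≤ n → ∀ᵐ o ∂P, |(P[Y n|F n]) o| ≤ C * (1 / 2) ^ n)
    (h2 : ∀ n, n₀ ≤ n → ∃ g : Ω → ℝ, StronglyMeasurable[F (n + 1)] g ∧
      ∀ᵐ o ∂P, |g o - Y n o| ≤ C * (1 / 2) ^ n)
    (b : ℕ → ℝ) (hb : Summable fun n => b n ^ 2) :
    ∀ᵐ o ∂P, ∃ L, Tendsto (fun n => ∑ k ∈ Finset.range n, b k * Y k o) atTop (𝓝 L) := by
  classical
  have h2' : ∀ n, ∃ g : Ω → ℝ, n₀ ≤ n → StronglyMeasurable[F (n + 1)] g ∧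
      ∀ᵐ o ∂P, |g o - Y n o| ≤ C * (1 / 2) ^ n := by
    intro n
    by_cases h : n₀ ≤ n
    · obtain ⟨g, hg⟩ := h2 n h
      exact ⟨g, fun _ => hg⟩
    · exact ⟨0, fun h' => absurd h' h⟩
  choose g hg using h2'
  have hYint : ∀ n, Integrable (Y n) P := fun n => Integrable.of_bound (hY n) K
    ((hK n).mono fun o h => by rw [Real.norm_eq_abs]; exact h)
  have hgb : ∀ n, n₀ ≤ n → ∀ᵐ o ∂P, |g n o| ≤ K + C := by
    intro n hn
    filter_upwards [(hg n hn).2, hK n] with o h3 h4
    have h5 : C * (1 / 2) ^ n ≤ C :=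
      mul_le_of_le_one_right hC (pow_le_one₀ (by norm_num) (by norm_num))
    have h6 : |g n o| ≤ |g n o - Y n o| + |Y n o| := by
      have := abs_add_le (g n o - Y n o) (Y n o)
      simpa using this
    linarith
  have hgm : ∀ n, n₀ ≤ n → AEStronglyMeasurable (g n) P := fun n hn =>
    ((hg n hn).1.mono (F.le _)).aestronglyMeasurable
  have hgint : ∀ n, n₀ ≤ n → Integrable (g n) P := fun n hn =>
    Integrable.of_bound (hgm n hn) (K + C)
      ((hgb n hn).mono fun o h => by rw [Real.norm_eq_abs]; exact h)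
  -- the martingale differences
  set d : ℕ → Ω → ℝ := fun n => if n₀ ≤ n then g n - P[g n|F n] else 0 with hd
  have hdm : ∀ n, StronglyMeasurable[F (n + 1)] (d n) := by
    intro n
    simp only [hd]
    split_ifs with h
    · exact (hg n h).1.sub (stronglyMeasurable_condExp.mono (F.mono (Nat.le_succ n)))
    · exact stronglyMeasurable_zero
  have hdb : ∀ n, ∀ᵐ o ∂P, |d n o| ≤ 2 * (K + C) := by
    intro n
    simp only [hd]
    split_ifs with h
    · filter_upwards [hgb n h, condExp_bdd (m := F n) (g n) (K + C) (by positivity) (hgb n h)]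
        with o h3 h4
      rw [Pi.sub_apply]
      have := abs_sub (g n o) ((P[g n|F n]) o)
      linarith
    · refine Eventually.of_forall fun o => ?_
      simp only [Pi.zero_apply, abs_zero]
      positivity
  have hd0 : ∀ n, P[d n|F n] =ᵐ[P] 0 := by
    intro n
    simp only [hd]
    split_ifs with h
    · refine (condExp_sub (hgint n h) integrable_condExp _).trans ?_
      have h3 := condExp_condExp_of_le (μ := P) (f := g n) (le_refl (F n)) (F.le n)
      filter_upwards [h3] with o ho
      simp [ho]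
    · rw [condExp_zero]
  have hM := mart F d (2 * (K + C)) hdm hdb hd0 b hb
  -- the difference
  have hdiff : ∀ n, n₀ ≤ n → ∀ᵐ o ∂P, |Y n o - d n o| ≤ 3 * C * (1 / 2) ^ n := by
    intro n hn
    have h3 : ∀ᵐ o ∂P, |(P[g n - Y n|F n]) o| ≤ C * (1 / 2) ^ n :=
      condExp_bdd (m := F n) (g n - Y n) _ (by positivity) (hg n hn).2
    filter_upwards [h3, h1 n hn, (hg n hn).2, condExp_sub (hgint n hn) (hYint n) (F n)]
      with o h4 h5 h6 h7
    have h8 : d n o = g n o - (P[g n|F n]) o := by simp [hd, hn]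
    rw [h7, Pi.sub_apply] at h4
    rw [h8]
    rw [abs_le] at h4 h5 h6 ⊢
    constructor <;> linarith [h4.1, h4.2, h5.1, h5.2, h6.1, h6.2]
  obtain ⟨A, hA⟩ : ∃ A : ℝ, ∀ n, |b n| ≤ A := by
    have h3 := hb.tendsto_atTop_zero
    have h4 : Tendsto (fun n => |b n|) atTop (𝓝 0) := by
      have h5 := h3.sqrt
      simpa [Real.sqrt_sq_eq_abs] using h5
    obtain ⟨A, hA⟩ := h4.bddAbove_range
    exact ⟨A, fun n => hA (mem_range_self n)⟩
  have hA0 : 0 ≤ A := (abs_nonneg _).trans (hA 0)
  have hdiff' : ∀ᵐ o ∂P, ∀ n, n₀ ≤ n → |Y n o - d n o| ≤ 3 * C * (1 / 2) ^ n := by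
    rw [ae_all_iff]
    intro n
    by_cases h : n₀ ≤ n
    · filter_upwards [hdiff n h] with o ho _
      exact ho
    · exact Eventually.of_forall fun o h' => absurd h' h
  filter_upwards [hM, hdiff'] with o ho1 ho2
  obtain ⟨L, hL⟩ := ho1
  have hs : Summable fun n => b n * (Y n o - d n o) := by
    have h3 : Summable fun n => A * (3 * C) * (1 / 2 : ℝ) ^ n :=
      (summable_geometric_of_lt_one (by norm_num) (by norm_num)).mul_left _
    rw [← summable_nat_add_iff n₀]
    refine Summable.of_norm_bounded ((summable_nat_add_iff n₀).2 h3) fun n => ?_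
    rw [norm_mul, Real.norm_eq_abs, Real.norm_eq_abs]
    have h4 := ho2 (n + n₀) (Nat.le_add_left _ _)
    calc |b (n + n₀)| * |Y (n + n₀) o - d (n + n₀) o| ≤ A * (3 * C * (1 / 2) ^ (n + n₀)) :=
          mul_le_mul (hA _) h4 (abs_nonneg _) hA0
      _ = A * (3 * C) * (1 / 2) ^ (n + n₀) := by ring
  refine ⟨L + ∑' n, b n * (Y n o - d n o), ?_⟩
  refine (hL.add hs.hasSum.tendsto_sum_nat).congr fun n => ?_
  rw [← Finset.sum_add_distrib]
  exact Finset.sum_congr rfl fun k _ => by ring

/-- the passage to a further subsequence -/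
theorem further (κ : ℕ → ℝ) (σ : ℕ → ℕ) (hσ : StrictMono σ) (a : ℕ → ℝ) :
    ∃ b : ℕ → ℝ, (Summable (fun n => a n ^ 2) → Summable fun n => b n ^ 2) ∧
      ∀ y : ℕ → ℝ, ∀ n, ∑ k ∈ Finset.range n, a k * y (σ k) =
        ∑ i ∈ Finset.range (σ n), b i * y i := by
  classical
  refine ⟨Function.extend σ a 0, fun h => ?_, fun y n => ?_⟩
  · have h1 : (fun n => Function.extend σ a 0 n ^ 2) = Function.extend σ (fun n => a n ^ 2) 0 := by
      funext n
      by_cases hn : ∃ k, σ k = n
      · obtain ⟨k, rfl⟩ := hn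
        rw [hσ.injective.extend_apply, hσ.injective.extend_apply]
      · rw [Function.extend_apply' _ _ _ hn, Function.extend_apply' _ _ _ hn]
        simp
    rw [h1]
    exact (Function.Injective.summable_iff hσ.injective (fun x hx => by
      rw [Function.extend_apply' _ _ _ hx]; rfl)).1 (by
        simpa [Function.comp_def, hσ.injective.extend_apply] using h)
  · have h1 : ∑ k ∈ Finset.range n, a k * y (σ k) =
        ∑ i ∈ (Finset.range n).image σ, Function.extend σ a 0 i * y i := by
      rw [Finset.sum_image (fun x _ y _ h => hσ.injective h)]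
      exact Finset.sum_congr rfl fun k _ => by rw [hσ.injective.extend_apply]
    rw [h1]
    refine Finset.sum_subset ?_ ?_
    · intro i hi
      obtain ⟨k, hk, rfl⟩ := Finset.mem_image.1 hi
      exact Finset.mem_range.2 (hσ (Finset.mem_range.1 hk))
    · intro i hi hi'
      have h2 : ¬ ∃ k, σ k = i := by
        rintro ⟨k, rfl⟩
        exact hi' (Finset.mem_image_of_mem _ (Finset.mem_range.2
          (hσ.lt_iff_lt.1 (Finset.mem_range.1 hi))))
      rw [Function.extend_apply' _ _ _ h2]
      simp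

end Pool.Agent.J4.H45.UQ
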