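import Pool.Agent.J4.H45.UQ.App

/-!
# Barycenters, rates
-/

set_option autoImplicit false

open MeasureTheory Filter Topology Set TopologicalSpace
open Pool.Agent.Y262.QE Pool.Agent.Y264.QR
open scoped ENNReal NNReal

noncomputable section

namespace Pool.Agent.J4.H45.UQ

theorem meas_coe {M : Type*} [MeasurableSpace M] :
    Measurable fun Q : ProbabilityMeasure M => (Q : Measure M) := measurable_subtype_coe

/-- the barycenter of a measure on the space of probability measures -/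
theorem join_eq {M : Type*} [TopologicalSpace M] [CompactSpace M] [MetrizableSpace M]
    [MeasurableSpace M] [BorelSpace M] (ν : Measure (ProbabilityMeasure M)) [IsProbabilityMeasure ν]
    (m : Measure M) [IsProbabilityMeasure m]
    (h : ∀ f : C(M, ℝ), ∫ Q : ProbabilityMeasure M, (∫ x, f x ∂(Q : Measure M)) ∂ν = ∫ x, f x ∂m)
    (B : Set M) (hB : MeasurableSet B) : ∫⁻ Q : ProbabilityMeasure M, (Q : Measure M) B ∂ν = m B := by
  set m' : Measure M := ν.bind fun Q : ProbabilityMeasure M => (Q : Measure M) with hm'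
  have hcoe : AEMeasurable (fun Q : ProbabilityMeasure M => (Q : Measure M)) ν :=
    meas_coe.aemeasurable
  have happ : ∀ B, MeasurableSet B → m' B = ∫⁻ Q : ProbabilityMeasure M, (Q : Measure M) B ∂ν :=
    fun B hB => Measure.bind_apply hB hcoe
  haveI : IsProbabilityMeasure m' := ⟨by rw [happ _ MeasurableSet.univ]; simp⟩
  have heq : m' = m := by
    refine ext_of_forall_lintegral_eq_of_IsFiniteMeasure fun f => ?_
    have hfm : Measurable fun x => (f x : ℝ≥0∞) :=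
      measurable_coe_nnreal_ennreal_iff.2 f.continuous.measurable
    rw [Measure.lintegral_bind hcoe hfm.aemeasurable]
    let g : C(M, ℝ) := ⟨fun x => (f x : ℝ), NNReal.continuous_coe.comp f.continuous⟩
    have h1 : ∀ Q : Measure M, IsProbabilityMeasure Q →
        ∫⁻ x, (f x : ℝ≥0∞) ∂Q = ENNReal.ofReal (∫ x, g x ∂Q) := by
      intro Q hQ
      rw [ofReal_integral_eq_lintegral_ofReal (int_cm Q g)
        (Eventually.of_forall fun x => (f x).coe_nonneg)]
      refine lintegral_congr fun x => ?_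
      show (f x : ℝ≥0∞) = ENNReal.ofReal (f x : ℝ)
      rw [ENNReal.ofReal_coe_nnreal]
    have h2 : ∫⁻ Q : ProbabilityMeasure M, ∫⁻ x, (f x : ℝ≥0∞) ∂(Q : Measure M) ∂ν =
        ∫⁻ Q : ProbabilityMeasure M, ENNReal.ofReal (∫ x, g x ∂(Q : Measure M)) ∂ν :=
      lintegral_congr fun Q => h1 Q inferInstance
    have h3 : Integrable (fun Q : ProbabilityMeasure M => ∫ x, g x ∂(Q : Measure M)) ν := by
      haveI : BorelSpace (ProbabilityMeasure M) := borelPM
      exact int_cm ν (evf g)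
    rw [h2, ← ofReal_integral_eq_lintegral_ofReal h3
      (Eventually.of_forall fun Q => integral_nonneg fun x => (f x).coe_nonneg), h g, h1 m inferInstance]
  rw [← happ B hB, heq]

/-- the limit of the weighted sums -/
theorem rate (x B : ℕ → ℝ) (hB : ∀ n, 0 < B n) (hm : Monotone B) (hT : Tendsto B atTop atTop)
    (h : ∃ L, Tendsto (fun n => ∑ k ∈ Finset.range n, (B k)⁻¹ * x k) atTop (𝓝 L)) :
    Tendsto (fun n => (B n)⁻¹ * ∑ k ∈ Finset.range n, x k) atTop (𝓝 0) := by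
  obtain ⟨L, hL⟩ := h
  exact kron x B hB hm hT L hL

theorem area_pos {M : Type} [MetricSpace M] [CompactSpace M] [MeasurableSpace M] [BorelSpace M]
    [Nonempty M] (μ : Measure M) (D : Data M) (hD : D.IsSurf μ) (φ : C(M, ℝ)) :
    (wm μ fun x => Real.exp (φ x)) univ ≠ 0 ∧ (wm μ fun x => Real.exp (φ x)) univ ≠ ∞ := by
  obtain ⟨hS, -⟩ := tConf M μ D hD _ (Real.continuous_exp.comp φ.continuous)
    fun x => Real.exp_pos _
  have h1 := tFin M _ _ hS
  have hfin : IsFiniteMeasure (wm μ fun x => Real.exp (φ x)) := h1.1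
  exact ⟨(h1.2 univ isOpen_univ univ_nonempty).ne', measure_ne_top _ _⟩

theorem tend_of_sum (B : ℕ → ℝ) (hB : ∀ n, 0 < B n) (h : Summable fun n => ((B n)⁻¹) ^ 2) :
    Tendsto B atTop atTop := by
  have h1 : Tendsto (fun n => (B n)⁻¹) atTop (𝓝 0) := by
    have h2 := h.tendsto_atTop_zero.sqrt
    simp only [Real.sqrt_zero] at h2
    refine h2.congr fun n => ?_
    rw [Real.sqrt_sq (inv_pos.2 (hB n)).le]
  have h3 : Tendsto (fun n => (B n)⁻¹) atTop (𝓝[>] 0) :=
    tendsto_nhdsWithin_iff.2 ⟨h1, Eventually.of_forall fun n => inv_pos.2 (hB n)⟩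
  have h4 := h3.inv_tendsto_nhdsGT_zero
  refine h4.congr fun n => ?_
  simp

/-- The theorem in the form of the hand-in. -/
theorem main {M : Type} [MetricSpace M] [CompactSpace M] [MeasurableSpace M] [BorelSpace M]
    [Nonempty M] (μ : Measure M) (D : Data M) (hD : D.IsSurf μ) [MeasurableSpace C(M, ℝ)]
    [BorelSpace C(M, ℝ)] (P : Measure C(M, ℝ)) [IsProbabilityMeasure P] (S : Set C(M, ℝ))
    (hS : Dense (Submodule.span ℝ S : Set C(M, ℝ)))
    (hP : ∀ h ∈ S, ∀ t : ℝ, P.map (fun φ => φ + t • h) ≪ P)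
    (u : C(M, ℝ) → ℕ → M → ℝ) (lam : C(M, ℝ) → ℕ → ℝ)
    (hu : ∀ φ, EigBasis (D.conf fun x => Real.exp (φ x)) (wm μ fun x => Real.exp (φ x))
      (u φ) (lam φ)) (U : C(M, ℝ) → ℕ → ProbabilityMeasure M)
    (hU : ∀ φ j, (U φ j : Measure M) = mass (wm μ fun x => Real.exp (φ x)) (u φ j))
    (J : ℕ → ℕ) (hJ : Tendsto J atTop atTop) (C : Set C(M, ℝ)) (hC : IsSigmaCompact C) :
    ∃ (κ : ℕ → ℕ) (ν : C(M, ℝ) → ProbabilityMeasure (ProbabilityMeasure M)), StrictMono κ ∧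
      (∀ Ψ : C(ProbabilityMeasure M, ℝ), AEStronglyMeasurable
        (fun φ => ∫ Q, Ψ Q ∂(ν φ : Measure (ProbabilityMeasure M))) P) ∧
      (∀ᵐ φ ∂P, (∀ B : Set M, MeasurableSet B →
          ∫⁻ Q : ProbabilityMeasure M, (Q : Measure M) B ∂(ν φ : Measure (ProbabilityMeasure M)) =
            (wm μ fun x => Real.exp (φ x)) B / (wm μ fun x => Real.exp (φ x)) univ) ∧
        ∀ᵐ Q ∂(ν φ : Measure (ProbabilityMeasure M)), ∃ τ : ℕ → ℕ, StrictMono τ ∧
          Tendsto (fun n => U φ (J (κ (τ n)))) atTop (𝓝 Q)) ∧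
      (∀ σ : ℕ → ℕ, StrictMono σ → ∀ᵐ φ ∂P,
        (∀ Ψ : C(ProbabilityMeasure M, ℝ), Tendsto
          (fun n : ℕ => (n : ℝ)⁻¹ * ∑ k ∈ Finset.range n, Ψ (U φ (J (κ (σ k))))) atTop
          (𝓝 (∫ Q, Ψ Q ∂(ν φ : Measure (ProbabilityMeasure M))))) ∧
        ∀ f : C(M, ℝ), Tendsto (fun n : ℕ => (n : ℝ)⁻¹ * ∑ k ∈ Finset.range n,
          ∫ x, f x * (u φ (J (κ (σ k))) x) ^ 2 ∂(wm μ fun x => Real.exp (φ x))) atTop
          (𝓝 ((∫ x, f x ∂(wm μ fun x => Real.exp (φ x))) /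
            (wm μ fun x => Real.exp (φ x)).real univ))) ∧
      (∀ f ∈ C, ∀ σ : ℕ → ℕ, StrictMono σ →
        (∀ a : ℕ → ℝ, Summable (fun k => a k ^ 2) →
          ∀ᵐ φ ∂P, ∃ L, Tendsto (fun n => ∑ k ∈ Finset.range n, a k *
            ((∫ x, f x * (u φ (J (κ (σ k))) x) ^ 2 ∂(wm μ fun x => Real.exp (φ x))) -
              (∫ x, f x ∂(wm μ fun x => Real.exp (φ x))) /
                (wm μ fun x => Real.exp (φ x)).real univ)) atTop (𝓝 L)) ∧
        ∀ B : ℕ → ℝ, (∀ n, 0 < B n) → Monotone B → Summable (fun n => ((B n)⁻¹) ^ 2) →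
          ∀ᵐ φ ∂P, Tendsto (fun n => (B n)⁻¹ * ∑ k ∈ Finset.range n,
            ((∫ x, f x * (u φ (J (κ (σ k))) x) ^ 2 ∂(wm μ fun x => Real.exp (φ x))) -
              (∫ x, f x ∂(wm μ fun x => Real.exp (φ x))) /
                (wm μ fun x => Real.exp (φ x)).real univ)) atTop (𝓝 0)) ∧
      ∀ (f : C(M, ℝ)) (A : Set C(M, ℝ)), MeasurableSet A →
        Tendsto (fun k => ∫ φ in A, ((∫ x, f x * (u φ (J (κ k)) x) ^ 2
            ∂(wm μ fun x => Real.exp (φ x))) - (∫ x, f x ∂(wm μ fun x => Real.exp (φ x))) /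
              (wm μ fun x => Real.exp (φ x)).real univ) ^ 2 ∂P) atTop
          (𝓝 (∫ φ in A, ∫ Q : ProbabilityMeasure M, ((∫ x, f x ∂(Q : Measure M)) -
            (∫ x, f x ∂(wm μ fun x => Real.exp (φ x))) /
              (wm μ fun x => Real.exp (φ x)).real univ) ^ 2
              ∂(ν φ : Measure (ProbabilityMeasure M)) ∂P)) := by
  obtain ⟨κ, ν, hκ, hm, h1, h2, h3, h4⟩ := app μ D hD P S hS hP u lam hu U hU J hJ C hC
  simp only [mean_eq]
  refine ⟨κ, ν, hκ, hm, ?_, h2, ?_, h4⟩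
  · filter_upwards [h1] with φ hφ
    refine ⟨fun B hB => ?_, hφ.2⟩
    obtain ⟨ha, hb⟩ := area_pos μ D hD φ
    set m : Measure M := wm μ fun x => Real.exp (φ x) with hmdef
    have hprob : IsProbabilityMeasure ((m univ)⁻¹ • m) := ⟨by
      rw [Measure.smul_apply, smul_eq_mul, ENNReal.inv_mul_cancel ha hb]⟩
    have h5 := join_eq (ν φ : Measure (ProbabilityMeasure M)) ((m univ)⁻¹ • m) (fun f => by
      rw [hφ.1 f, ← mean_eq, integral_smul_measure, ← hmdef, ENNReal.toReal_inv, smul_eq_mul,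
        div_eq_inv_mul]
      rfl) B hB
    rw [h5, Measure.smul_apply, smul_eq_mul, ENNReal.div_eq_inv_mul]
  · intro f hf σ hσ
    refine ⟨h3 f hf σ hσ, fun B hB hBm hBs => ?_⟩
    filter_upwards [h3 f hf σ hσ (fun n => (B n)⁻¹) hBs] with φ hφ
    exact rate _ B hB hBm (tend_of_sum B hB hBs) hφ

end Pool.Agent.J4.H45.UQ
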