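import Pool.Agent.J4.H45.UQ.Univ

/-!
# The Borel sets of the space of probability measures
-/

set_option autoImplicit false

open MeasureTheory Filter Topology Set TopologicalSpace

noncomputable section

namespace Pool.Agent.J4.H45.UQ

variable {M : Type*} [TopologicalSpace M] [CompactSpace M] [MetrizableSpace M]
  [MeasurableSpace M] [BorelSpace M]

theorem cont_int (Ψ : C(M, ℝ)) :
    Continuous fun Q : ProbabilityMeasure M => ∫ x, Ψ x ∂(Q : Measure M) :=
  ProbabilityMeasure.continuous_iff_forall_continuous_integral.1 continuous_id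
    (BoundedContinuousFunction.mkOfCompact Ψ)

theorem giry_int (Ψ : C(M, ℝ)) :
    Measurable fun Q : ProbabilityMeasure M => ∫ x, Ψ x ∂(Q : Measure M) := by
  have h1 : ∀ Q : ProbabilityMeasure M, ∫ x, Ψ x ∂(Q : Measure M) =
      (∫⁻ x, ENNReal.ofReal (Ψ x + ‖Ψ‖) ∂(Q : Measure M)).toReal - ‖Ψ‖ := by
    intro Q
    have h2 : ∫ x, (Ψ x + ‖Ψ‖) ∂(Q : Measure M) =
        (∫⁻ x, ENNReal.ofReal (Ψ x + ‖Ψ‖) ∂(Q : Measure M)).toReal := by
      refine integral_eq_lintegral_of_nonneg_ae (Eventually.of_forall fun x => ?_)
        ((Ψ.continuous.add continuous_const).measurable.aestronglyMeasurable)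
      have := (abs_le.1 (Ψ.norm_coe_le_norm x)).1
      show 0 ≤ Ψ x + ‖Ψ‖
      linarith
    rw [← h2, integral_add (int_cm _ Ψ) (integrable_const _)]
    simp
  simp only [h1]
  refine Measurable.sub_const ?_ _
  refine ENNReal.measurable_toReal.comp ?_
  have h3 : Measurable fun x => ENNReal.ofReal (Ψ x + ‖Ψ‖) :=
    ENNReal.measurable_ofReal.comp (Ψ.continuous.add continuous_const).measurable
  exact (Measure.measurable_lintegral h3).comp measurable_subtype_coe

theorem coe_borel (s : Set M) (hs : MeasurableSet s) :
    Measurable[borel (ProbabilityMeasure M)] fun Q : ProbabilityMeasure M => (Q : Measure M) s := by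
  have hgen : ‹MeasurableSpace M› = MeasurableSpace.generateFrom {s : Set M | IsOpen s} :=
    BorelSpace.measurable_eq
  refine MeasurableSpace.induction_on_inter (C := fun s _ =>
    Measurable[borel (ProbabilityMeasure M)] fun Q : ProbabilityMeasure M => (Q : Measure M) s)
    hgen isPiSystem_isOpen ?_ ?_ ?_ ?_ s hs
  · simp only [measure_empty]
    exact @measurable_const _ _ (borel _) _ _
  · intro t ht
    have h1 : LowerSemicontinuous fun Q : ProbabilityMeasure M => (Q : Measure M) t := by
      rw [lowerSemicontinuous_iff_le_liminf]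
      intro Q
      exact ProbabilityMeasure.le_liminf_measure_open_of_tendsto (μs := id) tendsto_id ht
    letI : MeasurableSpace (ProbabilityMeasure M) := borel _
    haveI : BorelSpace (ProbabilityMeasure M) := ⟨rfl⟩
    exact h1.measurable
  · intro t ht h
    have h1 : (fun Q : ProbabilityMeasure M => (Q : Measure M) tᶜ) =
        fun Q : ProbabilityMeasure M => 1 - (Q : Measure M) t := by
      funext Q
      exact prob_compl_eq_one_sub ht
    rw [h1]
    letI : MeasurableSpace (ProbabilityMeasure M) := borel _
    exact Measurable.const_sub h 1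
  · intro f hf hfm h
    have h1 : (fun Q : ProbabilityMeasure M => (Q : Measure M) (⋃ i, f i)) =
        fun Q : ProbabilityMeasure M => ∑' i, (Q : Measure M) (f i) := by
      funext Q
      exact measure_iUnion hf hfm
    rw [h1]
    letI : MeasurableSpace (ProbabilityMeasure M) := borel _
    exact Measurable.tsum h

theorem borelPM : BorelSpace (ProbabilityMeasure M) := by
  refine ⟨le_antisymm ?_ ?_⟩
  · have h1 : @Measurable _ _ (borel (ProbabilityMeasure M)) _
        (fun Q : ProbabilityMeasure M => (Q : Measure M)) :=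
      @Measure.measurable_of_measurable_coe _ _ _ (borel _) _ coe_borel
    exact h1.comap_le
  · let Ψs : ℕ → C(M, ℝ) := denseSeq C(M, ℝ)
    have hden : DenseRange Ψs := denseRange_denseSeq _
    let ev : ProbabilityMeasure M → ℕ → ℝ := fun Q m => ∫ x, Ψs m x ∂(Q : Measure M)
    have hc : Continuous ev := continuous_pi fun m => cont_int (Ψs m)
    have hinj : Function.Injective ev := by
      intro Q Q' h
      have h1 : ∀ Ψ : C(M, ℝ), ∫ x, Ψ x ∂(Q : Measure M) = ∫ x, Ψ x ∂(Q' : Measure M) := by
        intro Ψ
        refine eq_of_abs_sub_le_all fun ε hε => ?_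
        obtain ⟨m, hm⟩ := hden.exists_dist_lt Ψ (show 0 < ε / 2 by positivity)
        rw [dist_eq_norm] at hm
        have h2 := int_near (Q : Measure M) Ψ (Ψs m)
        have h3 := int_near (Q' : Measure M) Ψ (Ψs m)
        have h4 : ∫ x, Ψs m x ∂(Q : Measure M) = ∫ x, Ψs m x ∂(Q' : Measure M) := congrFun h m
        rw [abs_le] at h2 h3 ⊢
        constructor <;> linarith [h2.1, h2.2, h3.1, h3.2]
      apply ProbabilityMeasure.toMeasure_injective
      refine ext_of_forall_integral_eq_of_IsFiniteMeasure fun f => ?_
      exact h1 f.toContinuousMap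
    have hemb : IsClosedEmbedding ev := hc.isClosedEmbedding hinj
    have hm : Measurable ev := measurable_pi_lambda _ fun m => giry_int (Ψs m)
    have h1 : borel (ProbabilityMeasure M) = MeasurableSpace.comap ev (borel (ℕ → ℝ)) :=
      (congrArg (@borel _) hemb.isEmbedding.isInducing.eq_induced).trans borel_comap
    rw [h1, ← (BorelSpace.measurable_eq : (inferInstance : MeasurableSpace (ℕ → ℝ)) = borel _)]
    exact hm.comap_le

end Pool.Agent.J4.H45.UQ
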