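import Mathlib

/-!
# Kronecker's lemma
-/

set_option autoImplicit false

open Filter Topology Set Asymptotics

noncomputable section

namespace Pool.Agent.J4.H45.UQ

/-- Kronecker's lemma -/
theorem kron (x B : ℕ → ℝ) (hB : ∀ n, 0 < B n) (hm : Monotone B) (hT : Tendsto B atTop atTop)
    (L : ℝ) (h : Tendsto (fun n => ∑ k ∈ Finset.range n, (B k)⁻¹ * x k) atTop (𝓝 L)) :
    Tendsto (fun n => (B n)⁻¹ * ∑ k ∈ Finset.range n, x k) atTop (𝓝 0) := by
  set S : ℕ → ℝ := fun n => ∑ k ∈ Finset.range n, (B k)⁻¹ * x k with hS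
  have hS1 : ∀ k, x k = B k * (S (k + 1) - S k) := by
    intro k
    have : S (k + 1) = S k + (B k)⁻¹ * x k := Finset.sum_range_succ _ _
    rw [this, add_sub_cancel_left, ← mul_assoc, mul_inv_cancel₀ (hB k).ne', one_mul]
  have habel : ∀ n, ∑ k ∈ Finset.range n, x k =
      B n * S n - ∑ k ∈ Finset.range n, (B (k + 1) - B k) * S (k + 1) := by
    intro n
    induction n with
    | zero => simp [hS]
    | succ n ih =>
      rw [Finset.sum_range_succ, ih, Finset.sum_range_succ, hS1 n]
      ring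
  have h1 : (fun k => (B (k + 1) - B k) * (S (k + 1) - L)) =o[atTop] fun k => B (k + 1) - B k := by
    have h2 : Tendsto (fun k => S (k + 1) - L) atTop (𝓝 0) := by
      have := (h.comp (tendsto_add_atTop_nat 1)).sub_const L
      simpa using this
    have h3 : (fun k => S (k + 1) - L) =o[atTop] fun _ => (1 : ℝ) :=
      (isLittleO_one_iff ℝ).2 h2
    have := (isBigO_refl (fun k => B (k + 1) - B k) atTop).mul_isLittleO h3
    simpa using this
  have hsum : ∀ n, ∑ k ∈ Finset.range n, (B (k + 1) - B k) = B n - B 0 := fun n =>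
    Finset.sum_range_sub B n
  have h4 : (fun n => ∑ k ∈ Finset.range n, (B (k + 1) - B k) * (S (k + 1) - L)) =o[atTop]
      fun n => ∑ k ∈ Finset.range n, (B (k + 1) - B k) := by
    refine h1.sum_range (fun k => sub_nonneg.2 (hm (Nat.le_succ k))) ?_
    simp only [hsum]
    exact tendsto_atTop_add_const_right _ _ hT
  have h5 : (fun n => ∑ k ∈ Finset.range n, (B (k + 1) - B k) * (S (k + 1) - L)) =o[atTop] B := by
    refine h4.trans_isBigO ?_
    simp only [hsum]
    refine IsBigO.of_bound 1 (Eventually.of_forall fun n => ?_)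
    rw [one_mul, Real.norm_of_nonneg (sub_nonneg.2 (hm (Nat.zero_le n))),
      Real.norm_of_nonneg (hB n).le]
    linarith [hB 0]
  have h6 := h5.tendsto_div_nhds_zero
  have h7 : Tendsto (fun n => L * B 0 * (B n)⁻¹) atTop (𝓝 0) := by
    simpa using hT.inv_tendsto_atTop.const_mul (L * B 0)
  have h8 : Tendsto (fun n => (S n - L) - (∑ k ∈ Finset.range n,
      (B (k + 1) - B k) * (S (k + 1) - L)) / B n + L * B 0 * (B n)⁻¹) atTop (𝓝 0) := by
    have h9 : Tendsto (fun n => S n - L) atTop (𝓝 0) := by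
      have := h.sub_const L
      simpa using this
    simpa using (h9.sub h6).add h7
  refine h8.congr fun n => ?_
  have h10 : ∑ k ∈ Finset.range n, (B (k + 1) - B k) * (S (k + 1) - L) =
      ∑ k ∈ Finset.range n, (B (k + 1) - B k) * S (k + 1) - L * (B n - B 0) := by
    rw [← hsum n, Finset.mul_sum, ← Finset.sum_sub_distrib]
    exact Finset.sum_congr rfl fun k _ => by ring
  rw [h10, habel n]
  have := (hB n).ne'
  field_simp
  ring

/-- the weights `1 / (k + 1)` -/
theorem kron1 (x : ℕ → ℝ) (L : ℝ)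
    (h : Tendsto (fun n => ∑ k ∈ Finset.range n, ((k : ℝ) + 1)⁻¹ * x k) atTop (𝓝 L)) :
    Tendsto (fun n : ℕ => (n : ℝ)⁻¹ * ∑ k ∈ Finset.range n, x k) atTop (𝓝 0) := by
  have h1 := kron x (fun k : ℕ => (k : ℝ) + 1) (fun n => by positivity)
    (fun a b hab => by
      have : (a : ℝ) ≤ b := by exact_mod_cast hab
      simpa using this)
    (tendsto_atTop_add_const_right _ _ tendsto_natCast_atTop_atTop) L h
  have h2 : Tendsto (fun n : ℕ => ((n : ℝ) + 1) * (n : ℝ)⁻¹) atTop (𝓝 1) := by
    have h3 : Tendsto (fun n : ℕ => 1 + (n : ℝ)⁻¹) atTop (𝓝 (1 + 0)) :=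
      tendsto_const_nhds.add tendsto_inv_atTop_nhds_zero_nat
    rw [add_zero] at h3
    refine h3.congr' ?_
    filter_upwards [eventually_gt_atTop 0] with n hn
    have : (n : ℝ) ≠ 0 := by exact_mod_cast hn.ne'
    field_simp
  have h4 := h2.mul h1
  rw [mul_zero] at h4
  refine h4.congr fun n => ?_
  have : (n : ℝ) + 1 ≠ 0 := by positivity
  field_simp

theorem summable_w : Summable fun k : ℕ => (((k : ℝ) + 1)⁻¹) ^ 2 := by
  have h := (summable_nat_add_iff 1).2 (Real.summable_one_div_nat_pow.2 (by norm_num : 1 < 2))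
  refine h.congr fun k => ?_
  push_cast
  rw [inv_pow, one_div]

/-- averages of a uniform limit -/
theorem avg_close {E : Type*} (x : ℕ → E → ℝ) : True := trivial

end Pool.Agent.J4.H45.UQ
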