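import Mathlib

/-!
# Selection of universal subsequences

`X m k` are bounded random variables with `X m k → 0` weakly as `k → ∞`. A subsequence `κ` is
chosen such that the conditional expectations of `X m (κ n)` given a finite `σ`-algebra, for which
the discretized variables `X m (κ i)`, `i < n`, are measurable, are small.
-/

set_option autoImplicit false

open MeasureTheory Filter Topology Set

noncomputable section

namespace Pool.Agent.J4.H45.UQ

variable {Ω : Type*} [mΩ : MeasurableSpace Ω]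

/-- the discretized values -/
def code (X : ℕ → ℕ → Ω → ℝ) (N : ℕ) (o : Ω) : Fin N → Fin N → Fin N → ℤ :=
  fun i m k => ⌊(2 : ℝ) ^ (i : ℕ) * X m k o⌋

/-- the finite `σ`-algebra of the discretized values -/
def G (X : ℕ → ℕ → Ω → ℝ) (N : ℕ) : MeasurableSpace Ω :=
  MeasurableSpace.comap (code X N) inferInstance

theorem code_meas {X : ℕ → ℕ → Ω → ℝ} (hX : ∀ m k, Measurable (X m k)) (N : ℕ) :
    Measurable (code X N) := by
  refine measurable_pi_lambda _ fun i => measurable_pi_lambda _ fun m =>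
    measurable_pi_lambda _ fun k => ?_
  exact Int.measurable_floor.comp ((hX m k).const_mul _)

theorem G_le {X : ℕ → ℕ → Ω → ℝ} (hX : ∀ m k, Measurable (X m k)) (N : ℕ) : G X N ≤ mΩ :=
  (code_meas hX N).comap_le

theorem G_mono (X : ℕ → ℕ → Ω → ℝ) {N N' : ℕ} (h : N ≤ N') : G X N ≤ G X N' := by
  have h1 : code X N = (fun (c : Fin N' → Fin N' → Fin N' → ℤ) (i m k : Fin N) =>
      c (Fin.castLE h i) (Fin.castLE h m) (Fin.castLE h k)) ∘ code X N' := by
    funext o i m k
    rfl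
  unfold G
  rw [h1, ← MeasurableSpace.comap_comp]
  refine MeasurableSpace.comap_mono ?_
  exact Measurable.comap_le (measurable_pi_lambda _ fun i => measurable_pi_lambda _ fun m =>
    measurable_pi_lambda _ fun k => ((measurable_pi_apply _).comp ((measurable_pi_apply _).comp
      (measurable_pi_apply _))))

theorem disc_meas (X : ℕ → ℕ → Ω → ℝ) (N : ℕ) (i m k : ℕ) (hi : i < N) (hm : m < N) (hk : k < N) :
    Measurable[G X N] fun o => ⌊(2 : ℝ) ^ i * X m k o⌋ := by
  have h1 : (fun o => ⌊(2 : ℝ) ^ i * X m k o⌋) =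
      (fun c : Fin N → Fin N → Fin N → ℤ => c ⟨i, hi⟩ ⟨m, hm⟩ ⟨k, hk⟩) ∘ code X N := rfl
  rw [h1]
  exact Measurable.comp (((measurable_pi_apply _).comp ((measurable_pi_apply _).comp
      (measurable_pi_apply _)))) (comap_measurable _)

/-- the discretized variable -/
def disc (X : ℕ → ℕ → Ω → ℝ) (i m k : ℕ) (o : Ω) : ℝ := (⌊(2 : ℝ) ^ i * X m k o⌋ : ℝ) / 2 ^ i

theorem disc_near (X : ℕ → ℕ → Ω → ℝ) (i m k : ℕ) (o : Ω) :
    |disc X i m k o - X m k o| ≤ (1 / 2) ^ i := by
  have h2 : (0 : ℝ) < 2 ^ i := by positivity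
  have h3 := Int.floor_le ((2 : ℝ) ^ i * X m k o)
  have h4 := Int.lt_floor_add_one ((2 : ℝ) ^ i * X m k o)
  have h5 : disc X i m k o - X m k o = ((⌊(2 : ℝ) ^ i * X m k o⌋ : ℝ) - 2 ^ i * X m k o) / 2 ^ i := by
    unfold disc; field_simp
  rw [h5, abs_div, abs_of_pos h2, one_div, inv_pow, div_le_iff₀ h2, inv_mul_cancel₀ h2.ne',
    abs_le]
  constructor <;> linarith

theorem disc_smeas (X : ℕ → ℕ → Ω → ℝ) (N : ℕ) (i m k : ℕ) (hi : i < N) (hm : m < N) (hk : k < N) :
    StronglyMeasurable[G X N] (disc X i m k) := by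
  have h := disc_meas X N i m k hi hm hk
  have h2 : Measurable[G X N] (disc X i m k) :=
    (measurable_of_countable (fun z : ℤ => (z : ℝ) / 2 ^ i)).comp h
  exact h2.stronglyMeasurable

theorem code_range {X : ℕ → ℕ → Ω → ℝ} {K : ℕ → ℝ} (hK : ∀ m k o, |X m k o| ≤ K m) (N : ℕ) :
    (range (code X N)).Finite := by
  obtain ⟨L, hL⟩ : ∃ L : ℤ, ∀ i m : Fin N, (2 : ℝ) ^ (i : ℕ) * K m + 1 ≤ L := by
    have h1 : ∀ p : Fin N × Fin N, ∃ L : ℤ, (2 : ℝ) ^ (p.1 : ℕ) * K p.2 + 1 ≤ L := fun p =>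
      ⟨⌈(2 : ℝ) ^ (p.1 : ℕ) * K p.2 + 1⌉, Int.le_ceil _⟩
    choose g hg using h1
    obtain ⟨L, hL⟩ := (Set.finite_range g).bddAbove
    refine ⟨L, fun i m => (hg (i, m)).trans ?_⟩
    exact_mod_cast hL (mem_range_self (i, m))
  refine (Set.finite_Icc (fun _ _ _ => -L : Fin N → Fin N → Fin N → ℤ) (fun _ _ _ => L)).subset ?_
  rintro _ ⟨o, rfl⟩
  have hb : ∀ i m k : Fin N, |(2 : ℝ) ^ (i : ℕ) * X m k o| ≤ L - 1 := by
    intro i m k
    rw [abs_mul, abs_of_pos (by positivity)]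
    have := mul_le_mul_of_nonneg_left (hK m k o) (by positivity : (0 : ℝ) ≤ 2 ^ (i : ℕ))
    linarith [hL i m]
  constructor
  · intro i m k
    show -L ≤ ⌊(2 : ℝ) ^ (i : ℕ) * X m k o⌋
    rw [Int.le_floor]
    push_cast
    linarith [(abs_le.1 (hb i m k)).1]
  · intro i m k
    show ⌊(2 : ℝ) ^ (i : ℕ) * X m k o⌋ ≤ L
    have h1 := Int.floor_le ((2 : ℝ) ^ (i : ℕ) * X m k o)
    have h2 := (abs_le.1 (hb i m k)).2
    have h3 : (⌊(2 : ℝ) ^ (i : ℕ) * X m k o⌋ : ℝ) ≤ L := by linarith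
    exact_mod_cast h3

theorem sel {P : Measure Ω} [IsProbabilityMeasure P] {X : ℕ → ℕ → Ω → ℝ} {K : ℕ → ℝ}
    (hX : ∀ m k, Measurable (X m k)) (hK : ∀ m k o, |X m k o| ≤ K m)
    (h0 : ∀ m (A : Set Ω), MeasurableSet A →
      Tendsto (fun k => ∫ o in A, X m k o ∂P) atTop (𝓝 0)) (N : ℕ) (ε : ℝ) (hε : 0 < ε) :
    ∃ R : ℕ, ∀ k, R ≤ k → ∀ m, m < N → ∀ A, MeasurableSet[G X N] A →
      |∫ o in A, X m k o ∂P| ≤ ε * P.real A := by
  classical
  set F := (code_range hK N).toFinset with hF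
  have hint : ∀ m k, Integrable (X m k) P := fun m k =>
    Integrable.of_bound (hX m k).aestronglyMeasurable (K m)
      (Eventually.of_forall fun o => by rw [Real.norm_eq_abs]; exact hK m k o)
  have hAm : ∀ v, MeasurableSet (code X N ⁻¹' {v}) := fun v =>
    code_meas hX N (measurableSet_singleton v)
  have h1 : ∀ᶠ k in atTop, ∀ p ∈ (F ×ˢ Finset.range N),
      |∫ o in code X N ⁻¹' {p.1}, X p.2 k o ∂P| ≤ ε * P.real (code X N ⁻¹' {p.1}) := by
    rw [Filter.eventually_all_finset]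
    rintro ⟨v, m⟩ -
    rcases eq_or_ne (P.real (code X N ⁻¹' {v})) 0 with hz | hz
    · refine Eventually.of_forall fun k => ?_
      have hz' : P (code X N ⁻¹' {v}) = 0 := by
        rwa [measureReal_eq_zero_iff] at hz
      simp only [setIntegral_measure_zero _ hz', abs_zero, hz, mul_zero, le_refl]
    · have hpos : 0 < ε * P.real (code X N ⁻¹' {v}) :=
        mul_pos hε (lt_of_le_of_ne measureReal_nonneg (Ne.symm hz))
      have h2 := (h0 m _ (hAm v)).abs
      rw [abs_zero] at h2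
      exact (h2.eventually (gt_mem_nhds hpos)).mono fun k hk => hk.le
  obtain ⟨R, hR⟩ := eventually_atTop.1 h1
  refine ⟨R, fun k hk m hm A hA => ?_⟩
  obtain ⟨B, -, rfl⟩ := hA
  have h3 : code X N ⁻¹' B = ⋃ v ∈ F.filter (· ∈ B), code X N ⁻¹' {v} := by
    ext o
    simp only [mem_preimage, Finset.mem_filter, mem_iUnion, mem_singleton_iff, exists_prop]
    constructor
    · intro ho
      exact ⟨code X N o, ⟨by rw [hF]; simp, ho⟩, rfl⟩
    · rintro ⟨v, ⟨-, hv⟩, hv'⟩
      rw [hv']; exact hv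
  have hdis : Set.Pairwise (↑(F.filter (· ∈ B))) (Function.onFun Disjoint fun v => code X N ⁻¹' {v}) := by
    intro v _ w _ hvw
    exact Disjoint.preimage _ (by simpa using hvw)
  rw [h3, integral_biUnion_finset _ (fun v _ => hAm v) hdis
    (fun v _ => (hint m k).integrableOn),
    measureReal_biUnion_finset hdis (fun v _ => hAm v), Finset.mul_sum]
  refine (Finset.abs_sum_le_sum_abs _ _).trans (Finset.sum_le_sum fun v hv => ?_)
  exact hR k hk (v, m) (Finset.mem_product.2 ⟨(Finset.mem_filter.1 hv).1, Finset.mem_range.2 hm⟩)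

/-- small integrals over the sets of a `σ`-algebra give a small conditional expectation -/
theorem condExp_small {P : Measure Ω} [IsProbabilityMeasure P] {m : MeasurableSpace Ω} (hm : m ≤ mΩ)
    {Y : Ω → ℝ} (hY : Integrable Y P) (ε : ℝ)
    (h : ∀ A, MeasurableSet[m] A → |∫ o in A, Y o ∂P| ≤ ε * P.real A) :
    ∀ᵐ o ∂P, |(P[Y|m]) o| ≤ ε := by
  have hsm : StronglyMeasurable[m] (P[Y|m]) := stronglyMeasurable_condExp
  have hmeas : Measurable[m] (P[Y|m]) := hsm.measurable
  have key : ∀ s : ℝ, (s = 1 ∨ s = -1) → ∀ᵐ o ∂P, s * (P[Y|m]) o ≤ ε := by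
    intro s hs
    set A : Set Ω := {o | ε < s * (P[Y|m]) o} with hA
    have hAm : MeasurableSet[m] A := by
      have h1 : Measurable[m] fun o => s * (P[Y|m]) o := hmeas.const_mul s
      exact h1 measurableSet_Ioi
    have hAm' := hm _ hAm
    have h2 : ∫ o in A, (s * (P[Y|m]) o - ε) ∂P ≤ 0 := by
      rw [integral_sub (integrable_condExp.const_mul s).integrableOn (integrable_const _),
        integral_const_mul, setIntegral_condExp hm hY hAm, setIntegral_const, smul_eq_mul]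
      have h3 := h A hAm
      have h4 : s * ∫ o in A, Y o ∂P ≤ |∫ o in A, Y o ∂P| := by
        rcases hs with rfl | rfl
        · rw [one_mul]; exact le_abs_self _
        · rw [neg_one_mul]; exact neg_le_abs _
      linarith [mul_comm ε (P.real A)]
    have h5 : ∀ᵐ o ∂(P.restrict A), 0 ≤ s * (P[Y|m]) o - ε := by
      filter_upwards [ae_restrict_mem hAm'] with o ho
      have : ε < s * (P[Y|m]) o := ho
      linarith
    have h6 : ∫ o in A, (s * (P[Y|m]) o - ε) ∂P = 0 :=
      le_antisymm h2 (integral_nonneg_of_ae h5)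
    have h7 := (integral_eq_zero_iff_of_nonneg_ae h5
      ((integrable_condExp.const_mul s).integrableOn.sub (integrable_const _))).1 h6
    have h8 : P A = 0 := by
      have h9 : ∀ᵐ o ∂(P.restrict A), False := by
        filter_upwards [h7, ae_restrict_mem hAm'] with o h10 h11
        have h12 : ε < s * (P[Y|m]) o := h11
        simp only [Pi.zero_apply] at h10
        linarith
      simpa using h9
    have h10 : ∀ᵐ o ∂P, o ∉ A := measure_eq_zero_iff_ae_notMem.1 h8
    filter_upwards [h10] with o ho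
    exact not_lt.1 ho
  filter_upwards [key 1 (Or.inl rfl), key (-1) (Or.inr rfl)] with o h1 h2
  rw [abs_le]
  constructor <;> linarith

/-- the selection -/
theorem selMain {P : Measure Ω} [IsProbabilityMeasure P] {X : ℕ → ℕ → Ω → ℝ} {K : ℕ → ℝ}
    (hX : ∀ m k, Measurable (X m k)) (hK : ∀ m k o, |X m k o| ≤ K m)
    (h0 : ∀ m (A : Set Ω), MeasurableSet A →
      Tendsto (fun k => ∫ o in A, X m k o ∂P) atTop (𝓝 0)) (T : ℕ → ℕ) :
    ∃ (κ N : ℕ → ℕ) (F : Filtration ℕ mΩ), StrictMono κ ∧ (∀ n, T n ≤ N n ∧ n ≤ N n) ∧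
      ∀ n m, m < N n → (∀ᵐ o ∂P, |(P[X m (κ n)|F n]) o| ≤ (1 / 2) ^ n) ∧
        ∃ g : Ω → ℝ, StronglyMeasurable[F (n + 1)] g ∧ ∀ o, |g o - X m (κ n) o| ≤ (1 / 2) ^ n := by
  have hint : ∀ m k, Integrable (X m k) P := fun m k =>
    Integrable.of_bound (hX m k).aestronglyMeasurable (K m)
      (Eventually.of_forall fun o => by rw [Real.norm_eq_abs]; exact hK m k o)
  choose R hR using fun N : ℕ => sel hX hK h0 N ((1 / 2) ^ N) (by positivity)
  -- the levels
  let N : ℕ → ℕ := fun n => Nat.rec (T 0) (fun n v => max (max v (R v)) (T (n + 1)) + 1) n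
  have hN0 : N 0 = T 0 := rfl
  have hN1 : ∀ n, N (n + 1) = max (max (N n) (R (N n))) (T (n + 1)) + 1 := fun n => rfl
  have hlt : ∀ n, N n < N (n + 1) := fun n => by
    rw [hN1]; exact Nat.lt_succ_of_le ((le_max_left _ _).trans (le_max_left _ _))
  have hNm : StrictMono N := strictMono_nat_of_lt_succ hlt
  have hNT : ∀ n, T n ≤ N n := by
    intro n
    cases n with
    | zero => exact le_of_eq hN0.symm
    | succ n => rw [hN1]; exact (le_max_right _ _).trans (Nat.le_succ _)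
  have hκ : ∀ n, N n ≤ N (n + 1) - 1 ∧ R (N n) ≤ N (n + 1) - 1 ∧ N (n + 1) - 1 < N (n + 1) := by
    intro n
    rw [hN1]
    simp only [Nat.add_sub_cancel]
    exact ⟨(le_max_left _ _).trans (le_max_left _ _),
      (le_max_right _ _).trans (le_max_left _ _), Nat.lt_succ_self _⟩
  refine ⟨fun n => N (n + 1) - 1, N,
    ⟨fun n => G X (N n), fun a b hab => G_mono X (hNm.monotone hab), fun n => G_le hX _⟩,
    ?_, fun n => ⟨hNT n, hNm.le_apply⟩, ?_⟩
  · refine strictMono_nat_of_lt_succ fun n => ?_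
    exact lt_of_lt_of_le (hκ n).2.2 (hκ (n + 1)).1
  · intro n m hm
    constructor
    · have h1 := condExp_small (G_le hX (N n)) (hint m (N (n + 1) - 1)) _
        (hR (N n) _ (hκ n).2.1 m hm)
      filter_upwards [h1] with o ho
      refine ho.trans ?_
      exact pow_le_pow_of_le_one (by norm_num) (by norm_num) hNm.le_apply
    · refine ⟨disc X n m (N (n + 1) - 1), ?_, fun o => disc_near X n m _ o⟩
      exact disc_smeas X (N (n + 1)) n m _ (lt_of_le_of_lt hNm.le_apply (hlt n))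
        (hm.trans (hlt n)) (hκ n).2.2

end Pool.Agent.J4.H45.UQ
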