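import Pool.Agent.J4.H45.UQ.Weak
import Pool.Agent.J4.H45.UQ.Conv
import Pool.Agent.J4.H45.UQ.Kron

/-!
# Universal subsequences of random elements of a compact space
-/

set_option autoImplicit false

open MeasureTheory Filter Topology Set TopologicalSpace

noncomputable section

namespace Pool.Agent.J4.H45.UQ

variable {Ω : Type*} [mΩ : MeasurableSpace Ω]

section basics

variable {E : Type*} [TopologicalSpace E] [CompactSpace E] [MeasurableSpace E]
  [OpensMeasurableSpace E]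

theorem int_cm (ν : Measure E) [IsProbabilityMeasure ν] (Ψ : C(E, ℝ)) : Integrable Ψ ν := by
  refine Integrable.of_bound (Ψ.continuous.measurable.aestronglyMeasurable) ‖Ψ‖
    (Eventually.of_forall fun x => Ψ.norm_coe_le_norm x)

theorem int_near (ν : Measure E) [IsProbabilityMeasure ν] (Ψ Ψ' : C(E, ℝ)) :
    |∫ e, Ψ e ∂ν - ∫ e, Ψ' e ∂ν| ≤ ‖Ψ - Ψ'‖ := by
  rw [← integral_sub (int_cm ν Ψ) (int_cm ν Ψ'), ← Real.norm_eq_abs]
  refine (norm_integral_le_of_norm_le_const (C := ‖Ψ - Ψ'‖)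
    (Eventually.of_forall fun x => ?_)).trans (by simp)
  exact (Ψ - Ψ').norm_coe_le_norm x

theorem int_bound (ν : Measure E) [IsProbabilityMeasure ν] (Ψ : C(E, ℝ)) :
    |∫ e, Ψ e ∂ν| ≤ ‖Ψ‖ := by
  have := int_near ν Ψ 0
  simpa using this

theorem pt_near (x : E) (Ψ Ψ' : C(E, ℝ)) : |Ψ x - Ψ' x| ≤ ‖Ψ - Ψ'‖ :=
  (Ψ - Ψ').norm_coe_le_norm x

/-- the averages along a sequence of points -/
def av (Ψ : E → ℝ) (x : ℕ → E) (n : ℕ) : ℝ := (n : ℝ)⁻¹ * ∑ k ∈ Finset.range n, Ψ (x k)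

omit [MeasurableSpace E] [OpensMeasurableSpace E] in
theorem av_near (Ψ Ψ' : C(E, ℝ)) (x : ℕ → E) (n : ℕ) : |av Ψ x n - av Ψ' x n| ≤ ‖Ψ - Ψ'‖ := by
  unfold av
  rw [← mul_sub, ← Finset.sum_sub_distrib, abs_mul, abs_of_nonneg (by positivity)]
  have h1 : |∑ k ∈ Finset.range n, (Ψ (x k) - Ψ' (x k))| ≤ n * ‖Ψ - Ψ'‖ := by
    refine (Finset.abs_sum_le_sum_abs _ _).trans ?_
    refine (Finset.sum_le_sum fun k _ => (Ψ - Ψ').norm_coe_le_norm (x k)).trans ?_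
    simp
  rcases Nat.eq_zero_or_pos n with rfl | hn
  · simp
  · have hn' : (0 : ℝ) < n := by exact_mod_cast hn
    rw [inv_mul_le_iff₀ hn']
    exact h1

theorem av_lim (Ψs : ℕ → C(E, ℝ)) (hd : DenseRange Ψs) (x : ℕ → E) (ν : Measure E)
    [IsProbabilityMeasure ν] (h : ∀ m, Tendsto (av (Ψs m) x) atTop (𝓝 (∫ e, Ψs m e ∂ν)))
    (Ψ : C(E, ℝ)) : Tendsto (av Ψ x) atTop (𝓝 (∫ e, Ψ e ∂ν)) := by
  rw [Metric.tendsto_atTop]
  intro ε hε
  obtain ⟨m, hm⟩ := hd.exists_dist_lt Ψ (show 0 < ε / 3 by positivity)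
  rw [dist_eq_norm] at hm
  obtain ⟨N, hN⟩ := (Metric.tendsto_atTop.1 (h m)) (ε / 3) (by positivity)
  refine ⟨N, fun n hn => ?_⟩
  have h1 := hN n hn
  have h2 := av_near Ψ (Ψs m) x n
  have h3 := int_near ν Ψ (Ψs m)
  rw [Real.dist_eq] at h1 ⊢
  have h4 : av Ψ x n - ∫ e, Ψ e ∂ν = (av Ψ x n - av (Ψs m) x n) +
      (av (Ψs m) x n - ∫ e, Ψs m e ∂ν) - (∫ e, Ψ e ∂ν - ∫ e, Ψs m e ∂ν) := by ring
  rw [h4]
  have h5 := abs_sub (av Ψ x n - av (Ψs m) x n + (av (Ψs m) x n - ∫ e, Ψs m e ∂ν))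
    (∫ e, Ψ e ∂ν - ∫ e, Ψs m e ∂ν)
  have h6 := abs_add_le (av Ψ x n - av (Ψs m) x n) (av (Ψs m) x n - ∫ e, Ψs m e ∂ν)
  linarith

/-- the empirical measure -/
def emp (x : ℕ → E) (n : ℕ) : ProbabilityMeasure E :=
  ⟨((n + 1 : ℕ) : ENNReal)⁻¹ • ∑ k ∈ Finset.range (n + 1), Measure.dirac (x k), ⟨by
    simp only [Measure.smul_apply, Measure.finset_sum_apply, measure_univ, Finset.sum_const,
      Finset.card_range, nsmul_eq_mul, mul_one, smul_eq_mul]
    exact ENNReal.inv_mul_cancel (by simp) (ENNReal.natCast_ne_top _)⟩⟩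

theorem emp_int (x : ℕ → E) (n : ℕ) (Ψ : C(E, ℝ)) :
    ∫ e, Ψ e ∂(emp x n : Measure E) = av Ψ x (n + 1) := by
  show ∫ e, Ψ e ∂(((n + 1 : ℕ) : ENNReal)⁻¹ • ∑ k ∈ Finset.range (n + 1), Measure.dirac (x k)) = _
  rw [integral_smul_measure, integral_finset_sum_measure (fun k _ => int_cm _ Ψ)]
  unfold av
  congr 1
  · rw [ENNReal.toReal_inv, ENNReal.toReal_natCast]
  · refine Finset.sum_congr rfl fun k _ => ?_
    rw [integral_dirac' _ _ Ψ.continuous.stronglyMeasurable]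

end basics

section main

variable {E : Type*} [TopologicalSpace E] [CompactSpace E] [MetrizableSpace E]
  [MeasurableSpace E] [BorelSpace E] [Nonempty E]

/-- a limit of the empirical measures -/
theorem exists_lim (x : ℕ → E) : ∃ ν : ProbabilityMeasure E, ∃ τ : ℕ → ℕ, StrictMono τ ∧
    ∀ Ψ : C(E, ℝ), Tendsto (fun n => av Ψ x (τ n + 1)) atTop (𝓝 (∫ e, Ψ e ∂(ν : Measure E))) := by
  haveI : SecondCountableTopology E := inferInstance
  obtain ⟨ν, τ, hτ, hν⟩ := SeqCompactSpace.tendsto_subseq (emp x)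
  refine ⟨ν, τ, hτ, fun Ψ => ?_⟩
  have h1 := (ProbabilityMeasure.tendsto_iff_forall_integral_tendsto.1 hν)
    (BoundedContinuousFunction.mkOfCompact Ψ)
  refine h1.congr fun n => ?_
  exact emp_int x (τ n) Ψ

theorem supp (x : ℕ → E) (ν : Measure E) [IsProbabilityMeasure ν]
    (h : ∀ Ψ : C(E, ℝ), Tendsto (av Ψ x) atTop (𝓝 (∫ e, Ψ e ∂ν))) (j : ℕ) :
    ∀ᵐ e ∂ν, e ∈ closure (x '' Ici j) := by
  letI : MetricSpace E := TopologicalSpace.metrizableSpaceMetric E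
  set A : Set E := closure (x '' Ici j) with hA
  have hAc : IsClosed A := isClosed_closure
  have hAn : A.Nonempty := ⟨x j, subset_closure (mem_image_of_mem _ (mem_Ici.2 le_rfl))⟩
  let Ψ : C(E, ℝ) := ⟨fun e => Metric.infDist e A, Metric.continuous_infDist_pt A⟩
  have h1 : ∀ k, j ≤ k → Ψ (x k) = 0 := by
    intro k hk
    exact Metric.infDist_zero_of_mem (subset_closure (mem_image_of_mem _ (mem_Ici.2 hk)))
  have h2 : Tendsto (av Ψ x) atTop (𝓝 0) := by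
    have h3 : Tendsto (fun n : ℕ => (n : ℝ)⁻¹ * ∑ k ∈ Finset.range j, Ψ (x k)) atTop (𝓝 0) := by
      simpa using tendsto_inv_atTop_nhds_zero_nat.mul_const (∑ k ∈ Finset.range j, Ψ (x k))
    refine h3.congr' ?_
    filter_upwards [eventually_ge_atTop j] with n hn
    unfold av
    congr 1
    refine Finset.sum_subset (Finset.range_subset_range.2 hn) fun k _ hk => ?_
    exact h1 k (by simpa using hk)
  have h4 : ∫ e, Ψ e ∂ν = 0 := tendsto_nhds_unique (h Ψ) h2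
  have h5 := (integral_eq_zero_iff_of_nonneg (fun e => Metric.infDist_nonneg) (int_cm ν Ψ)).1 h4
  filter_upwards [h5] with e he
  exact (hAc.mem_iff_infDist_zero hAn).2 he

/-- Universal subsequences: the empirical distributions of all further subsequences converge almost
surely to the same random measure, with a convergence of series. -/
theorem univSub {P : Measure Ω} [IsProbabilityMeasure P] [SeparableSpace (Lp ℝ 2 P)]
    (U : ℕ → Ω → E) (hU : ∀ k (Ψ : C(E, ℝ)), AEStronglyMeasurable (fun o => Ψ (U k o)) P)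
    (C : Set C(E, ℝ)) (hC : IsSigmaCompact C) :
    ∃ (κ : ℕ → ℕ) (ν : Ω → ProbabilityMeasure E), StrictMono κ ∧
      (∀ Ψ : C(E, ℝ), AEStronglyMeasurable (fun o => ∫ e, Ψ e ∂(ν o : Measure E)) P) ∧
      (∀ (Ψ : C(E, ℝ)) (A : Set Ω), MeasurableSet A →
        Tendsto (fun k => ∫ o in A, Ψ (U (κ k) o) ∂P) atTop
          (𝓝 (∫ o in A, ∫ e, Ψ e ∂(ν o : Measure E) ∂P))) ∧
      (∀ σ : ℕ → ℕ, StrictMono σ → ∀ᵐ o ∂P, ∀ Ψ : C(E, ℝ),
        Tendsto (av Ψ fun k => U (κ (σ k)) o) atTop (𝓝 (∫ e, Ψ e ∂(ν o : Measure E)))) ∧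
      ∀ Ψ ∈ C, ∀ σ : ℕ → ℕ, StrictMono σ → ∀ a : ℕ → ℝ, Summable (fun k => a k ^ 2) →
        ∀ᵐ o ∂P, ∃ L, Tendsto (fun n => ∑ k ∈ Finset.range n,
          a k * (Ψ (U (κ (σ k)) o) - ∫ e, Ψ e ∂(ν o : Measure E))) atTop (𝓝 L) := by
  haveI : SecondCountableTopology E := inferInstance
  set Ψs : ℕ → C(E, ℝ) := denseSeq C(E, ℝ) with hΨs
  have hden : DenseRange Ψs := denseRange_denseSeq _
  -- measurable versions
  let X : ℕ → ℕ → Ω → ℝ := fun m k o => max (-‖Ψs m‖) (min ‖Ψs m‖ ((hU k (Ψs m)).mk _ o))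
  have hXm : ∀ m k, Measurable (X m k) := fun m k =>
    measurable_const.max (measurable_const.min (hU k (Ψs m)).stronglyMeasurable_mk.measurable)
  have hXK : ∀ m k o, |X m k o| ≤ ‖Ψs m‖ := by
    intro m k o
    rw [abs_le]
    exact ⟨le_max_left _ _, max_le (by linarith [norm_nonneg (Ψs m)]) (min_le_left _ _)⟩
  have hXU : ∀ m k, ∀ᵐ o ∂P, X m k o = Ψs m (U k o) := by
    intro m k
    filter_upwards [(hU k (Ψs m)).ae_eq_mk] with o ho
    have h1 := abs_le.1 ((Ψs m).norm_coe_le_norm (U k o))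
    show max (-‖Ψs m‖) (min ‖Ψs m‖ ((hU k (Ψs m)).mk _ o)) = _
    rw [← ho, min_eq_right h1.2, max_eq_right h1.1]
  obtain ⟨κ₀, hκ₀, Y, hYm, hYK, hYw⟩ := weak (P := P) X (fun m => ‖Ψs m‖)
    (fun m k => (hXm m k).aestronglyMeasurable) (fun m k => Eventually.of_forall (hXK m k))
  have hXint : ∀ m k, Integrable (X m k) P := fun m k =>
    Integrable.of_bound (hXm m k).aestronglyMeasurable ‖Ψs m‖
      (Eventually.of_forall fun o => by rw [Real.norm_eq_abs]; exact hXK m k o)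
  have hYint : ∀ m, Integrable (Y m) P := fun m =>
    Integrable.of_bound (hYm m).aestronglyMeasurable ‖Ψs m‖
      (Eventually.of_forall fun o => by rw [Real.norm_eq_abs]; exact hYK m o)
  let Z : ℕ → ℕ → Ω → ℝ := fun m k o => X m (κ₀ k) o - Y m o
  have hZm : ∀ m k, Measurable (Z m k) := fun m k => (hXm m _).sub (hYm m)
  have hZK : ∀ m k o, |Z m k o| ≤ 2 * ‖Ψs m‖ := by
    intro m k o
    have := abs_sub (X m (κ₀ k) o) (Y m o)
    have h1 := hXK m (κ₀ k) o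
    have h2 := hYK m o
    show |X m (κ₀ k) o - Y m o| ≤ _
    linarith
  have hZ0 : ∀ m (A : Set Ω), MeasurableSet A →
      Tendsto (fun k => ∫ o in A, Z m k o ∂P) atTop (𝓝 0) := by
    intro m A hA
    have h1 := (hYw m A hA).sub_const (∫ o in A, Y m o ∂P)
    rw [sub_self] at h1
    refine h1.congr fun k => ?_
    exact (integral_sub (hXint m _).integrableOn (hYint m).integrableOn).symm
  -- the nets
  obtain ⟨Kc, hKc, hKU⟩ := hC
  have hT : ∀ n : ℕ, ∃ T : ℕ, ∀ Ψ ∈ ⋃ j ∈ Finset.range (n + 1), Kc j, ∃ m < T,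
      ‖Ψ - Ψs m‖ ≤ (1 / 2 : ℝ) ^ n := by
    intro n
    have hcomp : IsCompact (⋃ j ∈ Finset.range (n + 1), Kc j) :=
      (Finset.range (n + 1)).isCompact_biUnion fun j _ => hKc j
    obtain ⟨t, ht⟩ := hcomp.elim_finite_subcover
      (fun m => Metric.ball (Ψs m) ((1 / 2 : ℝ) ^ n)) (fun m => Metric.isOpen_ball) (by
        intro Ψ _
        obtain ⟨m, hm⟩ := hden.exists_dist_lt Ψ (show (0 : ℝ) < (1 / 2) ^ n by positivity)
        exact mem_iUnion.2 ⟨m, hm⟩)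
    obtain ⟨T, hT⟩ := t.exists_nat_subset_range
    refine ⟨T, fun Ψ hΨ => ?_⟩
    obtain ⟨m, hm, hm'⟩ := mem_iUnion₂.1 (ht hΨ)
    refine ⟨m, Finset.mem_range.1 (hT hm), ?_⟩
    rw [← dist_eq_norm]
    exact le_of_lt hm'
  choose T hT using hT
  obtain ⟨κ₁, N, F, hκ₁, hN, hsel⟩ := selMain (P := P) hZm hZK hZ0 T
  -- the first almost sure convergence
  have hser : ∀ m (σ : ℕ → ℕ), StrictMono σ → ∀ a : ℕ → ℝ, Summable (fun k => a k ^ 2) →
      ∀ᵐ o ∂P, ∃ L, Tendsto (fun n => ∑ k ∈ Finset.range n, a k * Z m (κ₁ (σ k)) o) atTop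
        (𝓝 L) := by
    intro m σ hσ a ha
    obtain ⟨b, hb, hab⟩ := further (fun _ => 0) σ hσ a
    have h1 := conv (P := P) F (fun n => Z m (κ₁ n)) (2 * ‖Ψs m‖) 1 (m + 1)
      (fun n => (hZm m _).aestronglyMeasurable) (fun n => Eventually.of_forall (hZK m _))
      (by positivity) zero_le_one (fun n hn => by
        filter_upwards [(hsel n m (lt_of_lt_of_le hn (hN n).2)).1] with o ho
        rw [one_mul]; exact ho) (fun n hn => by
        obtain ⟨g, hg1, hg2⟩ := (hsel n m (lt_of_lt_of_le hn (hN n).2)).2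
        refine ⟨g, hg1, Eventually.of_forall fun o => ?_⟩
        rw [one_mul]; exact hg2 o) b (hb ha)
    filter_upwards [h1] with o ho
    obtain ⟨L, hL⟩ := ho
    refine ⟨L, (hL.comp hσ.tendsto_atTop).congr fun n => ?_⟩
    exact (hab (fun n => Z m (κ₁ n) o) n).symm
  have hXU' : ∀ᵐ o ∂P, ∀ m k, X m k o = Ψs m (U k o) := by
    rw [ae_all_iff]
    intro m
    rw [ae_all_iff]
    exact hXU m
  have hces : ∀ σ : ℕ → ℕ, StrictMono σ → ∀ᵐ o ∂P, ∀ m,
      Tendsto (av (Ψs m) fun k => U (κ₀ (κ₁ (σ k))) o) atTop (𝓝 (Y m o)) := by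
    intro σ hσ
    rw [ae_all_iff]
    intro m
    filter_upwards [hser m σ hσ (fun k => ((k : ℝ) + 1)⁻¹) summable_w, hXU'] with o ho1 ho2
    obtain ⟨L, hL⟩ := ho1
    have h1 := kron1 _ L hL
    have h2 := h1.add_const (Y m o)
    rw [zero_add] at h2
    refine h2.congr' ?_
    filter_upwards [eventually_gt_atTop 0] with n hn
    have hn' : (n : ℝ) ≠ 0 := by exact_mod_cast hn.ne'
    unfold av
    have h3 : ∑ k ∈ Finset.range n, Z m (κ₁ (σ k)) o =
        ∑ k ∈ Finset.range n, Ψs m (U (κ₀ (κ₁ (σ k))) o) - n * Y m o := by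
      have : ∀ k ∈ Finset.range n, Z m (κ₁ (σ k)) o =
          Ψs m (U (κ₀ (κ₁ (σ k))) o) - Y m o := by
        intro k _
        rw [← ho2]
      rw [Finset.sum_congr rfl this, Finset.sum_sub_distrib]
      simp
    rw [h3, mul_sub, ← mul_assoc, inv_mul_cancel₀ hn', one_mul]
    ring
  -- the limit distribution
  choose ν τ hτ hν using fun o : Ω => exists_lim fun k => U (κ₀ (κ₁ k)) o
  have hνY : ∀ᵐ o ∂P, ∀ m, ∫ e, Ψs m e ∂(ν o : Measure E) = Y m o := by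
    filter_upwards [hces id strictMono_id] with o ho m
    refine tendsto_nhds_unique (hν o (Ψs m)) ?_
    exact (ho m).comp ((tendsto_add_atTop_nat 1).comp (hτ o).tendsto_atTop)
  have hνm : ∀ Ψ : C(E, ℝ), AEStronglyMeasurable (fun o => ∫ e, Ψ e ∂(ν o : Measure E)) P := by
    intro Ψ
    obtain ⟨q, hq⟩ : ∃ q : ℕ → ℕ, Tendsto (fun n => Ψs (q n)) atTop (𝓝 Ψ) := by
      have h1 : ∀ n : ℕ, ∃ m, dist Ψ (Ψs m) < 1 / ((n : ℝ) + 1) := fun n =>
        hden.exists_dist_lt Ψ (by positivity)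
      choose q hq using h1
      refine ⟨q, ?_⟩
      rw [tendsto_iff_dist_tendsto_zero]
      refine squeeze_zero (fun _ => dist_nonneg) (fun n => ?_) tendsto_one_div_add_atTop_nhds_zero_nat
      rw [dist_comm]; exact (hq n).le
    refine aestronglyMeasurable_of_tendsto_ae atTop (f := fun n o => Y (q n) o)
      (fun n => (hYm (q n)).aestronglyMeasurable) ?_
    filter_upwards [hνY] with o ho
    have h2 : Tendsto (fun n => ∫ e, Ψs (q n) e ∂(ν o : Measure E)) atTop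
        (𝓝 (∫ e, Ψ e ∂(ν o : Measure E))) := by
      rw [tendsto_iff_norm_sub_tendsto_zero] at hq ⊢
      refine squeeze_zero (fun _ => norm_nonneg _) (fun n => ?_) hq
      exact int_near (ν o : Measure E) (Ψs (q n)) Ψ
    exact h2.congr fun n => ho (q n)
  refine ⟨fun n => κ₀ (κ₁ n), ν, hκ₀.comp hκ₁, hνm, ?_, ?_, ?_⟩
  · -- weak convergence
    intro Ψ A hA
    rw [Metric.tendsto_atTop]
    intro ε hε
    obtain ⟨m, hm⟩ := hden.exists_dist_lt Ψ (show 0 < ε / 3 by positivity)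
    rw [dist_eq_norm] at hm
    have h1 : Tendsto (fun k => ∫ o in A, Ψs m (U (κ₀ (κ₁ k)) o) ∂P) atTop
        (𝓝 (∫ o in A, ∫ e, Ψs m e ∂(ν o : Measure E) ∂P)) := by
      have h2 := (hYw m A hA).comp hκ₁.tendsto_atTop
      have h3 : ∫ o in A, ∫ e, Ψs m e ∂(ν o : Measure E) ∂P = ∫ o in A, Y m o ∂P :=
        integral_congr_ae (ae_restrict_of_ae (hνY.mono fun o ho => ho m))
      rw [h3]
      refine h2.congr fun k => ?_
      exact integral_congr_ae (ae_restrict_of_ae (hXU m _))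
    obtain ⟨n₀, hn₀⟩ := (Metric.tendsto_atTop.1 h1) (ε / 3) (by positivity)
    refine ⟨n₀, fun k hk => ?_⟩
    have h4 := hn₀ k hk
    rw [Real.dist_eq] at h4 ⊢
    have hi : ∀ (Φ : C(E, ℝ)) (k : ℕ), Integrable (fun o => Φ (U k o)) P := fun Φ k =>
      Integrable.of_bound (hU k Φ) ‖Φ‖ (Eventually.of_forall fun o => Φ.norm_coe_le_norm _)
    have hj : ∀ Φ : C(E, ℝ), Integrable (fun o => ∫ e, Φ e ∂(ν o : Measure E)) P := fun Φ =>
      Integrable.of_bound (hνm Φ) ‖Φ‖ (Eventually.of_forall fun o => by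
        rw [Real.norm_eq_abs]; exact int_bound (ν o : Measure E) Φ)
    have hA1 : P.real A ≤ 1 := measureReal_le_one
    have h5 : |∫ o in A, Ψ (U (κ₀ (κ₁ k)) o) ∂P - ∫ o in A, Ψs m (U (κ₀ (κ₁ k)) o) ∂P| ≤
        ‖Ψ - Ψs m‖ := by
      rw [← integral_sub (hi _ _).integrableOn (hi _ _).integrableOn, ← Real.norm_eq_abs]
      refine (norm_setIntegral_le_of_norm_le_const (C := ‖Ψ - Ψs m‖) (measure_lt_top P A)
        (fun o _ => pt_near _ Ψ (Ψs m))).trans ?_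
      exact mul_le_of_le_one_right (norm_nonneg _) hA1
    have h6 : |∫ o in A, ∫ e, Ψ e ∂(ν o : Measure E) ∂P -
        ∫ o in A, ∫ e, Ψs m e ∂(ν o : Measure E) ∂P| ≤ ‖Ψ - Ψs m‖ := by
      rw [← integral_sub (hj _).integrableOn (hj _).integrableOn, ← Real.norm_eq_abs]
      refine (norm_setIntegral_le_of_norm_le_const (C := ‖Ψ - Ψs m‖) (measure_lt_top P A)
        (fun o _ => int_near (ν o : Measure E) Ψ (Ψs m))).trans ?_
      exact mul_le_of_le_one_right (norm_nonneg _) hA1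
    rw [abs_lt] at h4 ⊢
    rw [abs_le] at h5 h6
    constructor <;> linarith [h4.1, h4.2, h5.1, h5.2, h6.1, h6.2]
  · intro σ hσ
    filter_upwards [hces σ hσ, hνY] with o ho1 ho2 Ψ
    refine av_lim Ψs hden _ (ν o : Measure E) (fun m => ?_) Ψ
    rw [ho2 m]
    exact ho1 m
  · intro Ψ hΨ σ hσ a ha
    obtain ⟨j, hj⟩ := mem_iUnion.1 (hKU ▸ hΨ)
    obtain ⟨b, hb, hab⟩ := further (fun _ => 0) σ hσ a
    have hmn : ∀ n, j ≤ n → ∃ m < N n, ‖Ψ - Ψs m‖ ≤ (1 / 2 : ℝ) ^ n := by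
      intro n hn
      obtain ⟨m, hm, hm'⟩ := hT n Ψ (mem_iUnion₂.2 ⟨j, Finset.mem_range.2 (Nat.lt_succ_of_le hn), hj⟩)
      exact ⟨m, lt_of_lt_of_le hm (hN n).1, hm'⟩
    have hnear : ∀ n m, ‖Ψ - Ψs m‖ ≤ (1 / 2 : ℝ) ^ n → ∀ᵐ o ∂P,
        |(Ψ (U (κ₀ (κ₁ n)) o) - ∫ e, Ψ e ∂(ν o : Measure E)) - Z m (κ₁ n) o| ≤
          2 * (1 / 2 : ℝ) ^ n := by
      intro n m hm
      filter_upwards [hXU', hνY] with o ho1 ho2
      have h1 := pt_near (U (κ₀ (κ₁ n)) o) Ψ (Ψs m)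
      have h2 := int_near (ν o : Measure E) Ψ (Ψs m)
      have h3 : Z m (κ₁ n) o = Ψs m (U (κ₀ (κ₁ n)) o) - ∫ e, Ψs m e ∂(ν o : Measure E) := by
        show X m (κ₀ (κ₁ n)) o - Y m o = _
        rw [ho1, ho2]
      rw [h3]
      rw [abs_le] at h1 h2 ⊢
      constructor <;> linarith [h1.1, h1.2, h2.1, h2.2]
    have hWm : ∀ n, AEStronglyMeasurable
        (fun o => Ψ (U (κ₀ (κ₁ n)) o) - ∫ e, Ψ e ∂(ν o : Measure E)) P := fun n =>
      (hU _ Ψ).sub (hνm Ψ)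
    have hWb : ∀ n o, |Ψ (U (κ₀ (κ₁ n)) o) - ∫ e, Ψ e ∂(ν o : Measure E)| ≤ 2 * ‖Ψ‖ := by
      intro n o
      have h1 := Ψ.norm_coe_le_norm (U (κ₀ (κ₁ n)) o)
      have h2 := int_bound (ν o : Measure E) Ψ
      have h3 := abs_sub (Ψ (U (κ₀ (κ₁ n)) o)) (∫ e, Ψ e ∂(ν o : Measure E))
      rw [Real.norm_eq_abs] at h1
      linarith
    have hWint : ∀ n, Integrable
        (fun o => Ψ (U (κ₀ (κ₁ n)) o) - ∫ e, Ψ e ∂(ν o : Measure E)) P := fun n =>
      Integrable.of_bound (hWm n) (2 * ‖Ψ‖) (Eventually.of_forall fun o => by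
        rw [Real.norm_eq_abs]; exact hWb n o)
    have hZint : ∀ m n, Integrable (Z m n) P := fun m n => (hXint m _).sub (hYint m)
    have h1 := conv (P := P) F
      (fun n o => Ψ (U (κ₀ (κ₁ n)) o) - ∫ e, Ψ e ∂(ν o : Measure E)) (2 * ‖Ψ‖) 3 j
      hWm (fun n => Eventually.of_forall (hWb n)) (by positivity) (by norm_num) (fun n hn => by
        obtain ⟨m, hm, hm'⟩ := hmn n hn
        have h2 := condExp_bdd (m := F n)
          ((fun o => Ψ (U (κ₀ (κ₁ n)) o) - ∫ e, Ψ e ∂(ν o : Measure E)) - Z m (κ₁ n))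
          (2 * (1 / 2 : ℝ) ^ n) (by positivity) (hnear n m hm')
        filter_upwards [h2, (hsel n m hm).1, condExp_sub (hWint n) (hZint m (κ₁ n)) (F n)]
          with o h3 h4 h5
        rw [h5, Pi.sub_apply] at h3
        rw [abs_le] at h3 h4 ⊢
        constructor <;> linarith [h3.1, h3.2, h4.1, h4.2]) (fun n hn => by
        obtain ⟨m, hm, hm'⟩ := hmn n hn
        obtain ⟨g, hg1, hg2⟩ := (hsel n m hm).2
        refine ⟨g, hg1, ?_⟩
        filter_upwards [hnear n m hm'] with o h3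
        have h4 := hg2 o
        rw [abs_le] at h3 h4 ⊢
        constructor <;> linarith [h3.1, h3.2, h4.1, h4.2]) b (hb ha)
    filter_upwards [h1] with o ho
    obtain ⟨L, hL⟩ := ho
    refine ⟨L, (hL.comp hσ.tendsto_atTop).congr fun n => ?_⟩
    exact (hab (fun n => Ψ (U (κ₀ (κ₁ n)) o) - ∫ e, Ψ e ∂(ν o : Measure E)) n).symm

end main

end Pool.Agent.J4.H45.UQ
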