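import Pool.Agent.J4.H45.UQ.Sel

/-!
# Weak limits of bounded random variables
-/

set_option autoImplicit false

open MeasureTheory Filter Topology Set TopologicalSpace

noncomputable section

namespace Pool.Agent.J4.H45.UQ

variable {Ω : Type*} [mΩ : MeasurableSpace Ω]

theorem weakDual_diag {V : Type*} [NormedAddCommGroup V] [InnerProductSpace ℝ V] [CompleteSpace V]
    [SeparableSpace V] (x : ℕ → ℕ → V) (K : ℕ → ℝ) (h : ∀ m k, ‖x m k‖ ≤ K m) :
    ∃ κ : ℕ → ℕ, StrictMono κ ∧ ∃ y : ℕ → V, ∀ m v,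
      Tendsto (fun k => inner ℝ (x m (κ k)) v) atTop (𝓝 (inner ℝ (y m) v)) := by
  let B : ℕ → Set (WeakDual ℝ V) := fun m =>
    WeakDual.toStrongDual ⁻¹' Metric.closedBall (0 : StrongDual ℝ V) (K m)
  have hBc : ∀ m, IsCompact (B m) := fun m => WeakDual.isCompact_closedBall _ _
  haveI : ∀ m, CompactSpace (B m) := fun m => isCompact_iff_compactSpace.1 (hBc m)
  haveI : ∀ m, MetrizableSpace (B m) := fun m => WeakDual.metrizable_of_isCompact ℝ V _ (hBc m)
  let T : ℕ → ∀ m, B m := fun k m => ⟨StrongDual.toWeakDual (InnerProductSpace.toDual ℝ V (x m k)), by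
    show WeakDual.toStrongDual _ ∈ Metric.closedBall _ _
    rw [mem_closedBall_zero_iff]
    have : ‖InnerProductSpace.toDual ℝ V (x m k)‖ ≤ K m := by
      rw [LinearIsometryEquiv.norm_map]; exact h m k
    exact this⟩
  obtain ⟨Φ, κ, hκ, hΦ⟩ := SeqCompactSpace.tendsto_subseq T
  refine ⟨κ, hκ, fun m => (InnerProductSpace.toDual ℝ V).symm
    (WeakDual.toStrongDual (Φ m : WeakDual ℝ V)), fun m v => ?_⟩
  have h1 : Tendsto (fun k => ((T (κ k) m : B m) : WeakDual ℝ V)) atTop (𝓝 (Φ m : WeakDual ℝ V)) :=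
    (continuous_subtype_val.tendsto _).comp ((tendsto_pi_nhds.1 hΦ) m)
  have h2 := ((WeakDual.eval_continuous v).tendsto _).comp h1
  have h3 : inner ℝ ((InnerProductSpace.toDual ℝ V).symm
      (WeakDual.toStrongDual (Φ m : WeakDual ℝ V))) v = (Φ m : WeakDual ℝ V) v := by
    rw [InnerProductSpace.toDual_symm_apply]
    rfl
  rw [h3]
  exact h2

theorem weak {P : Measure Ω} [IsProbabilityMeasure P] [SeparableSpace (Lp ℝ 2 P)]
    (X : ℕ → ℕ → Ω → ℝ) (K : ℕ → ℝ) (hX : ∀ m k, AEStronglyMeasurable (X m k) P)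
    (hK : ∀ m k, ∀ᵐ o ∂P, |X m k o| ≤ K m) :
    ∃ κ : ℕ → ℕ, StrictMono κ ∧ ∃ Y : ℕ → Ω → ℝ, (∀ m, Measurable (Y m)) ∧
      (∀ m o, |Y m o| ≤ K m) ∧ ∀ m A, MeasurableSet A →
        Tendsto (fun k => ∫ o in A, X m (κ k) o ∂P) atTop (𝓝 (∫ o in A, Y m o ∂P)) := by
  have hK0 : ∀ m, 0 ≤ K m := by
    intro m
    obtain ⟨o, ho⟩ := (hK m 0).exists
    exact (abs_nonneg _).trans ho
  have hmem : ∀ m k, MemLp (X m k) 2 P := fun m k =>
    MemLp.of_bound (hX m k) (K m) ((hK m k).mono fun o h => by rw [Real.norm_eq_abs]; exact h)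
  have hnorm : ∀ m k, ‖(hmem m k).toLp‖ ≤ K m := by
    intro m k
    have h1 := Lp.norm_le_of_ae_bound (f := (hmem m k).toLp) (hK0 m)
      (by filter_upwards [(hmem m k).coeFn_toLp, hK m k] with o h2 h3
          rw [h2, Real.norm_eq_abs]; exact h3)
    have h2 : measureUnivNNReal P = 1 := by simp [measureUnivNNReal]
    rw [h2] at h1
    simpa using h1
  obtain ⟨κ, hκ, y, hy⟩ := weakDual_diag (fun m k => (hmem m k).toLp) K hnorm
  have hconv : ∀ m A, MeasurableSet A →
      Tendsto (fun k => ∫ o in A, X m (κ k) o ∂P) atTop (𝓝 (∫ o in A, y m o ∂P)) := by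
    intro m A hA
    have h1 := hy m (indicatorConstLp 2 hA (measure_ne_top P A) (1 : ℝ))
    have h2 : ∀ f : Lp ℝ 2 P, inner ℝ f (indicatorConstLp 2 hA (measure_ne_top P A) (1 : ℝ)) =
        ∫ o in A, f o ∂P := by
      intro f
      rw [real_inner_comm, L2.inner_indicatorConstLp_one]
    simp only [h2] at h1
    refine h1.congr fun k => ?_
    exact integral_congr_ae (ae_restrict_of_ae (hmem m (κ k)).coeFn_toLp)
  have hyint : ∀ m, Integrable (y m) P := fun m =>
    (Lp.memLp (y m)).integrable (by norm_num)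
  have hyb : ∀ m, ∀ᵐ o ∂P, |y m o| ≤ K m := by
    intro m
    have h1 := condExp_small (P := P) (m := mΩ) le_rfl (hyint m) (K m) (fun A hA => by
      refine le_of_tendsto (hconv m A hA).abs (Eventually.of_forall fun k => ?_)
      have h2 := norm_setIntegral_le_of_norm_le_const_ae' (μ := P) (s := A) (f := X m (κ k))
        (C := K m) (measure_lt_top P A) (by
          filter_upwards [hK m (κ k)] with o ho _
          rw [Real.norm_eq_abs]; exact ho)
      rw [Real.norm_eq_abs] at h2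
      exact h2)
    rwa [condExp_of_stronglyMeasurable le_rfl (Lp.stronglyMeasurable (y m)) (hyint m)] at h1
  refine ⟨κ, hκ, fun m o => max (-K m) (min (K m) (y m o)), fun m => ?_, fun m o => ?_,
    fun m A hA => ?_⟩
  · exact measurable_const.max (measurable_const.min (Lp.stronglyMeasurable (y m)).measurable)
  · rw [abs_le]
    exact ⟨le_max_left _ _, max_le (by linarith [hK0 m]) (min_le_left _ _)⟩
  · have h1 : ∫ o in A, max (-K m) (min (K m) (y m o)) ∂P = ∫ o in A, y m o ∂P := by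
      refine integral_congr_ae (ae_restrict_of_ae ?_)
      filter_upwards [hyb m] with o ho
      rw [abs_le] at ho
      rw [min_eq_right ho.2, max_eq_right ho.1]
    rw [h1]
    exact hconv m A hA

end Pool.Agent.J4.H45.UQ
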